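import Mathlib

/-!
# An abstract lemma on one negative direction
-/

set_option autoImplicit false

namespace Pool.Agent.TH569.HP

theorem lin_zero {A B : ℝ} (h : ∀ t : ℝ, 0 ≤ 2 * t * A + t ^ 2 * B) : A = 0 := by
  by_contra hA
  have hB : 0 < |B| + 1 := by positivity
  have h1 := h (-A / (|B| + 1))
  have h2 : 2 * (-A / (|B| + 1)) * A + (-A / (|B| + 1)) ^ 2 * B =
      (A ^ 2 / (|B| + 1) ^ 2) * (B - 2 * (|B| + 1)) := by
    field_simp
    ring
  rw [h2] at h1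
  have h3 : 0 < A ^ 2 / (|B| + 1) ^ 2 := by positivity
  have h4 : B - 2 * (|B| + 1) < 0 := by
    have := le_abs_self B
    have := abs_nonneg B
    linarith
  have h5 := mul_neg_of_pos_of_neg h3 h4
  linarith

theorem cubic_root_pos {B C D : ℝ} : ∃ t : ℝ, t ^ 3 + B * t ^ 2 + C * t + D = 0 := by
  set T : ℝ := 1 + |B| + |C| + |D| with hT
  have hB := abs_nonneg B
  have hC := abs_nonneg C
  have hD := abs_nonneg D
  have hT1 : 1 ≤ T := by linarith
  have hT2 : T ≤ T ^ 2 := by nlinarith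
  have hcont : Continuous fun t : ℝ => t ^ 3 + B * t ^ 2 + C * t + D := by fun_prop
  have hTT : 0 ≤ T ^ 2 := by positivity
  have hb1 : -(|B| * T ^ 2) ≤ B * T ^ 2 := by
    have := mul_le_mul_of_nonneg_right (neg_abs_le B) hTT
    linarith
  have hb2 : B * T ^ 2 ≤ |B| * T ^ 2 := mul_le_mul_of_nonneg_right (le_abs_self B) hTT
  have hc1 : |C * T| ≤ |C| * T ^ 2 := by
    rw [abs_mul, abs_of_nonneg (by linarith : (0:ℝ) ≤ T)]
    exact mul_le_mul_of_nonneg_left hT2 hC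
  have hd1 : |D| ≤ |D| * T ^ 2 := by nlinarith
  have h3 := abs_le.mp hc1
  have h4 := abs_le.mp (le_refl |D|)
  have hpos : 0 ≤ T ^ 3 + B * T ^ 2 + C * T + D := by
    have : T ^ 3 = T ^ 2 + |B| * T ^ 2 + |C| * T ^ 2 + |D| * T ^ 2 := by
      rw [hT]
      ring
    linarith
  have hneg : (-T) ^ 3 + B * (-T) ^ 2 + C * (-T) + D ≤ 0 := by
    have : T ^ 3 = T ^ 2 + |B| * T ^ 2 + |C| * T ^ 2 + |D| * T ^ 2 := by
      rw [hT]
      ring
    have e1 : (-T) ^ 3 = - T ^ 3 := by ring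
    have e2 : (-T) ^ 2 = T ^ 2 := by ring
    rw [e1, e2]
    linarith
  have h5 := intermediate_value_Icc (by linarith : -T ≤ T) hcont.continuousOn
  obtain ⟨t, _, ht⟩ := h5 ⟨hneg, hpos⟩
  exact ⟨t, ht⟩

theorem cubic_root {A B C D : ℝ} (hA : A ≠ 0) : ∃ t : ℝ, A * t ^ 3 + B * t ^ 2 + C * t + D = 0 := by
  obtain ⟨t, ht⟩ := cubic_root_pos (B := B / A) (C := C / A) (D := D / A)
  refine ⟨t, ?_⟩
  have : A * (t ^ 3 + B / A * t ^ 2 + C / A * t + D / A) = 0 := by rw [ht, mul_zero]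
  have h2 : A * (t ^ 3 + B / A * t ^ 2 + C / A * t + D / A) =
      A * t ^ 3 + B * t ^ 2 + C * t + D := by
    field_simp
  rw [h2] at this
  exact this

theorem abs_lemma {W : Type} [AddCommGroup W] [Module ℝ W] (P : W →ₗ[ℝ] W →ₗ[ℝ] ℝ)
    (hs : ∀ x y, P x y = P y x) (hpos : ∀ x, 0 ≤ P x x) (Z X : W) {a κ z : ℝ} (ha : 0 < a)
    (hκ : 0 < κ) (hz : z ≠ 0) (hPZ : P Z Z = a) (hX : P X X = κ) (hXZ : P X Z = z)
    (hY : 0 ≤ P (κ⁻¹ • X - z⁻¹ • Z) (κ⁻¹ • X - z⁻¹ • Z) -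
      2 / a * P Z (κ⁻¹ • X - z⁻¹ • Z) ^ 2)
    {V : W} (hV : P X V = 0) : 0 ≤ P V V - 2 / a * P Z V ^ 2 := by
  have hCS : ∀ x y, P x y ^ 2 ≤ P x x * P y y := fun x y =>
    LinearMap.BilinForm.apply_sq_le_of_symm P hpos ⟨fun u v => hs u v⟩ x y
  have hZX : P Z X = z := by rw [hs, hXZ]
  have h1 : z ^ 2 ≤ κ * a := by
    have := hCS X Z
    rw [hXZ, hX, hPZ] at this
    exact this
  have hz2 : 0 < z ^ 2 := by positivity
  have e1 : P (κ⁻¹ • X - z⁻¹ • Z) (κ⁻¹ • X - z⁻¹ • Z) = a / z ^ 2 - 1 / κ := by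
    simp only [map_sub, map_smul, LinearMap.sub_apply, LinearMap.smul_apply, smul_eq_mul, hX,
      hXZ, hZX, hPZ]
    field_simp
    ring
  have e2 : P Z (κ⁻¹ • X - z⁻¹ • Z) = z / κ - a / z := by
    simp only [map_sub, map_smul, smul_eq_mul, hZX, hPZ]
    field_simp
  rw [e1, e2] at hY
  have h2 : 0 ≤ (a * κ - z ^ 2) * (2 * z ^ 2 - a * κ) := by
    have h3 : (a * κ - z ^ 2) * (2 * z ^ 2 - a * κ) =
        (a / z ^ 2 - 1 / κ - 2 / a * (z / κ - a / z) ^ 2) * (z ^ 2 * κ ^ 2 * a) := by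
      field_simp
      ring
    rw [h3]
    exact mul_nonneg hY (by positivity)
  have h4 : a * κ ≤ 2 * z ^ 2 := by
    by_contra hcon
    push Not at hcon
    have h5 : z ^ 2 < a * κ := by nlinarith [mul_pos ha hκ]
    nlinarith [mul_pos (sub_pos.mpr h5) (sub_pos.mpr hcon)]
  have h6 : P Z V = P (Z - (z / κ) • X) V := by
    simp only [map_sub, map_smul, LinearMap.sub_apply, LinearMap.smul_apply, smul_eq_mul, hV]
    ring
  have h7 : P (Z - (z / κ) • X) (Z - (z / κ) • X) = a - z ^ 2 / κ := by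
    simp only [map_sub, map_smul, LinearMap.sub_apply, LinearMap.smul_apply, smul_eq_mul, hX,
      hXZ, hZX, hPZ]
    field_simp
    ring
  have h8 := hCS (Z - (z / κ) • X) V
  rw [← h6, h7] at h8
  have h9 : 2 / a * P Z V ^ 2 ≤ 2 / a * ((a - z ^ 2 / κ) * P V V) :=
    mul_le_mul_of_nonneg_left h8 (by positivity)
  have h10 : 2 / a * ((a - z ^ 2 / κ) * P V V) ≤ P V V := by
    have h11 : 2 / a * ((a - z ^ 2 / κ) * P V V) = (2 * (a * κ - z ^ 2) / (a * κ)) * P V V := by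
      field_simp
    rw [h11]
    have h12 : 2 * (a * κ - z ^ 2) / (a * κ) ≤ 1 := by
      rw [div_le_one (by positivity)]
      linarith
    have := mul_le_mul_of_nonneg_right h12 (hpos V)
    linarith
  linarith

end Pool.Agent.TH569.HP
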