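import Mathlib

/-!
# Squares adapted to a second form
-/

set_option autoImplicit false

namespace Pool.Agent.TH569.HP

open Finset

open scoped MatrixOrder in
theorem psd_squares {J : Type} [Fintype J] [DecidableEq J] (A : Matrix J J ℝ)
    (hs : ∀ p q, A p q = A q p) (hnn : ∀ x : J → ℝ, 0 ≤ ∑ p, ∑ q, A p q * (x p * x q)) :
    ∃ B : Matrix J J ℝ, ∀ p q, A p q = ∑ a, B a p * B a q := by
  have h : A.PosSemidef := by
    refine Matrix.PosSemidef.of_dotProduct_mulVec_nonneg ?_ ?_
    · ext p q
      simp [Matrix.conjTranspose_apply, hs q p]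
    · intro x
      have h1 : star x ⬝ᵥ (A.mulVec x) = ∑ p, ∑ q, A p q * (x p * x q) := by
        simp only [star_trivial, dotProduct, Matrix.mulVec, Finset.mul_sum]
        refine Finset.sum_congr rfl fun p _ => Finset.sum_congr rfl fun q _ => ?_
        ring
      rw [h1]
      exact hnn x
  obtain ⟨B, hB⟩ := CStarAlgebra.nonneg_iff_eq_star_mul_self.mp h.nonneg
  refine ⟨B, fun p q => ?_⟩
  rw [hB]
  simp [Matrix.mul_apply, Matrix.star_eq_conjTranspose]

/-- A real symmetric matrix is diagonalised by an orthogonal one. -/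
theorem exists_diag {J : Type} [Fintype J] [DecidableEq J] (C : Matrix J J ℝ)
    (hs : ∀ p q, C p q = C q p) :
    ∃ U : Matrix J J ℝ, (∀ a b, ∑ j, U a j * U b j = if a = b then 1 else 0) ∧
      ∀ i j, i ≠ j → ∑ a, ∑ b, C a b * (U a i * U b j) = 0 := by
  have hC : C.IsHermitian := by
    ext p q
    simp [Matrix.conjTranspose_apply, hs q p]
  refine ⟨(hC.eigenvectorUnitary : Matrix J J ℝ), ?_, ?_⟩
  · intro a b
    have h := Matrix.mem_unitaryGroup_iff.mp hC.eigenvectorUnitary.2
    have h1 := congrFun (congrFun h a) b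
    rw [Matrix.mul_apply, Matrix.one_apply] at h1
    rw [← h1]
    refine Finset.sum_congr rfl fun j _ => ?_
    rw [Matrix.star_apply, star_trivial]
  · intro i j hij
    have h := hC.conjStarAlgAut_star_eigenvectorUnitary
    have h1 := congrFun (congrFun h i) j
    rw [Matrix.diagonal_apply_ne _ hij] at h1
    rw [← h1]
    simp only [Unitary.conjStarAlgAut_apply, Unitary.coe_star, star_star, Matrix.mul_apply, Matrix.star_apply, star_trivial, Finset.sum_mul]
    rw [Finset.sum_comm]
    refine Finset.sum_congr rfl fun a _ => Finset.sum_congr rfl fun b _ => ?_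
    ring

/-- Squares adapted to a second symmetric form. -/
theorem adapted_squares {J : Type} [Fintype J] [DecidableEq J] (A B : Matrix J J ℝ)
    (hs : ∀ p q, A p q = A q p) (hnn : ∀ x : J → ℝ, 0 ≤ ∑ p, ∑ q, A p q * (x p * x q))
    (hB : ∀ p q, B p q = B q p) :
    ∃ F : J → J → ℝ, (∀ p q, A p q = ∑ j, F j p * F j q) ∧
      ∀ i j, i ≠ j → ∑ p, ∑ q, B p q * (F i p * F j q) = 0 := by
  obtain ⟨G, hG⟩ := psd_squares A hs hnn
  obtain ⟨U, hU, hD⟩ := exists_diag (Matrix.of fun a b => ∑ p, ∑ q, B p q * (G a p * G b q))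
    (by
      intro a b
      simp only [Matrix.of_apply]
      rw [Finset.sum_comm]
      refine Finset.sum_congr rfl fun p _ => Finset.sum_congr rfl fun q _ => ?_
      rw [hB q p]
      ring)
  refine ⟨fun j p => ∑ a, U a j * G a p, ?_, ?_⟩
  · intro p q
    rw [hG]
    simp only [Finset.sum_mul_sum]
    rw [Finset.sum_comm]
    have h : ∀ a, ∑ j, ∑ b, U a j * G a p * (U b j * G b q) = G a p * G a q := by
      intro a
      rw [Finset.sum_comm]
      have h1 : ∀ b, ∑ j, U a j * G a p * (U b j * G b q) =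
          (if a = b then 1 else 0) * (G a p * G b q) := by
        intro b
        rw [← hU a b, Finset.sum_mul]
        exact Finset.sum_congr rfl fun j _ => by ring
      simp only [h1]
      simp
    exact Finset.sum_congr rfl fun a _ => (h a).symm
  · intro i j hij
    rw [← hD i j hij]
    simp only [Matrix.of_apply, Finset.mul_sum, Finset.sum_mul]
    have e1 : ∀ (f : J → J → J → J → ℝ), ∑ p, ∑ q, ∑ a, ∑ b, f p q a b =
        ∑ a, ∑ b, ∑ p, ∑ q, f p q a b := by
      intro f
      calc ∑ p, ∑ q, ∑ a, ∑ b, f p q a b = ∑ p, ∑ a, ∑ q, ∑ b, f p q a b :=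
            Finset.sum_congr rfl fun p _ => Finset.sum_comm
        _ = ∑ a, ∑ p, ∑ q, ∑ b, f p q a b := Finset.sum_comm
        _ = ∑ a, ∑ p, ∑ b, ∑ q, f p q a b := Finset.sum_congr rfl fun a _ =>
            Finset.sum_congr rfl fun p _ => Finset.sum_comm
        _ = ∑ a, ∑ b, ∑ p, ∑ q, f p q a b := Finset.sum_congr rfl fun a _ => Finset.sum_comm
    rw [e1, Finset.sum_comm]
    refine Finset.sum_congr rfl fun a _ => Finset.sum_congr rfl fun b _ =>
      Finset.sum_congr rfl fun p _ => Finset.sum_congr rfl fun q _ => ?_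
    ring

end Pool.Agent.TH569.HP
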