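import Pool.Agent.TH569.HP.Pf2
import Pool.Agent.TH569.HP.Lin

/-!
# The Gauss–Bonnet–Chern integrand of a sum of squares minus one decomposable square
-/

set_option autoImplicit false

namespace Pool.Agent.TH569.HP

open Finset Equiv Hopf6

theorem sum5 {κ α : Type} [Fintype κ] [Fintype α] (F : κ → κ → κ → α → α → ℝ) :
    ∑ i, ∑ j, ∑ k, ∑ s, ∑ t, F i j k s t = ∑ s, ∑ t, ∑ i, ∑ j, ∑ k, F i j k s t := by
  have h : ∀ i, ∑ j, ∑ k, ∑ s, ∑ t, F i j k s t = ∑ s, ∑ t, ∑ j, ∑ k, F i j k s t := by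
    intro i
    have h1 : ∀ j, ∑ k, ∑ s, ∑ t, F i j k s t = ∑ s, ∑ t, ∑ k, F i j k s t := by
      intro j
      rw [Finset.sum_comm]
      exact Finset.sum_congr rfl fun s _ => Finset.sum_comm
    simp only [h1]
    rw [Finset.sum_comm]
    exact Finset.sum_congr rfl fun s _ => Finset.sum_comm
  simp only [h]
  rw [Finset.sum_comm]
  exact Finset.sum_congr rfl fun s _ => Finset.sum_comm

theorem gb_squares {κ : Type} [Fintype κ] (R : Ten) (c : κ → ℝ) (φ : κ → M6)
    (h : ∀ a b a' b', R a b a' b' = ∑ k, c k * (φ k a b * φ k a' b')) :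
    gb R = ∑ i, ∑ j, ∑ k, c i * c j * c k * PP (φ i) (φ j) (φ k) ^ 2 := by
  have h1 : ∀ i j k, c i * c j * c k * PP (φ i) (φ j) (φ k) ^ 2 =
      ∑ σ : Perm (Fin 6), ∑ τ : Perm (Fin 6), c i * c j * c k *
        ((sg σ * (φ i (σ 0) (σ 1) * φ j (σ 2) (σ 3) * φ k (σ 4) (σ 5))) *
        (sg τ * (φ i (τ 0) (τ 1) * φ j (τ 2) (τ 3) * φ k (τ 4) (τ 5)))) := by
    intro i j k
    unfold PP
    rw [sq, Finset.sum_mul_sum, Finset.mul_sum]
    refine Finset.sum_congr rfl fun σ _ => ?_
    rw [Finset.mul_sum]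
  simp only [h1]
  rw [sum5]
  unfold gb
  refine Finset.sum_congr rfl fun σ _ => Finset.sum_congr rfl fun τ _ => ?_
  rw [h, h, h, Finset.sum_mul_sum, Finset.sum_mul, Finset.mul_sum]
  refine Finset.sum_congr rfl fun i _ => ?_
  rw [Finset.sum_mul, Finset.mul_sum]
  refine Finset.sum_congr rfl fun j _ => ?_
  rw [Finset.mul_sum, Finset.mul_sum]
  refine Finset.sum_congr rfl fun k _ => ?_
  unfold sg
  ring

/-- elementary arrays -/
noncomputable def EE (p : Fin 6 × Fin 6) : M6 := fun i j => dl i p.1 * dl j p.2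

theorem sum_EE (f : M6) (i j : Fin 6) : ∑ p : Fin 6 × Fin 6, f p.1 p.2 * EE p i j = f i j := by
  rw [Fintype.sum_prod_type]
  unfold EE
  have h : ∀ a, ∑ b, f a b * (dl i a * dl j b) = dl i a * f a j := by
    intro a
    rw [← sum_ind j (fun b => f a b), Finset.mul_sum]
    exact Finset.sum_congr rfl fun b _ => by ring
  simp only [h]
  exact sum_ind i (fun a => f a j)

theorem PP_EE (ν f g : M6) :
    ∑ p, ∑ q, PP ν (EE p) (EE q) * (f p.1 p.2 * g q.1 q.2) = PP ν f g := by
  unfold PP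
  have h : ∀ p q : Fin 6 × Fin 6, (∑ σ : Perm (Fin 6), sg σ *
      (ν (σ 0) (σ 1) * EE p (σ 2) (σ 3) * EE q (σ 4) (σ 5))) * (f p.1 p.2 * g q.1 q.2) =
      ∑ σ : Perm (Fin 6), sg σ * ν (σ 0) (σ 1) *
        ((f p.1 p.2 * EE p (σ 2) (σ 3)) * (g q.1 q.2 * EE q (σ 4) (σ 5))) := by
    intro p q
    rw [Finset.sum_mul]
    exact Finset.sum_congr rfl fun σ _ => by ring
  simp only [h]
  have h1 : ∀ p : Fin 6 × Fin 6, ∑ q : Fin 6 × Fin 6, ∑ σ : Perm (Fin 6), sg σ * ν (σ 0) (σ 1) *
        ((f p.1 p.2 * EE p (σ 2) (σ 3)) * (g q.1 q.2 * EE q (σ 4) (σ 5))) =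
      ∑ σ : Perm (Fin 6), sg σ * ν (σ 0) (σ 1) *
        ((f p.1 p.2 * EE p (σ 2) (σ 3)) * g (σ 4) (σ 5)) := by
    intro p
    rw [Finset.sum_comm]
    refine Finset.sum_congr rfl fun σ _ => ?_
    rw [← sum_EE g (σ 4) (σ 5), Finset.mul_sum, Finset.mul_sum]
  simp only [h1]
  rw [Finset.sum_comm]
  refine Finset.sum_congr rfl fun σ _ => ?_
  have h2 := sum_EE f (σ 2) (σ 3)
  calc ∑ p : Fin 6 × Fin 6, sg σ * ν (σ 0) (σ 1) *
        ((f p.1 p.2 * EE p (σ 2) (σ 3)) * g (σ 4) (σ 5)) =
      sg σ * ν (σ 0) (σ 1) * ((∑ p : Fin 6 × Fin 6, f p.1 p.2 * EE p (σ 2) (σ 3)) *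
        g (σ 4) (σ 5)) := by
        rw [Finset.sum_mul, Finset.mul_sum]
    _ = _ := by rw [h2]; ring

/-- the inequality for the squares in a triple sum -/
theorem triple_ge {κ : Type} [Fintype κ] [DecidableEq κ] (a : κ → κ → κ → ℝ)
    (h0 : ∀ i j k, 0 ≤ a i j k) (h12 : ∀ i j k, a j i k = a i j k)
    (h23 : ∀ i j k, a i k j = a i j k) :
    ∑ j, a j j j + 3 * ∑ j, ∑ i, (if i = j then 0 else a i j j) ≤ ∑ i, ∑ j, ∑ k, a i j k := by
  have h1 : ∀ i j k, (if j = k then a i j j else 0) +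
      (if i = k then (if j = k then 0 else a j k k) else 0) +
      (if i = j then (if j = k then 0 else a k j j) else 0) ≤ a i j k := by
    intro i j k
    by_cases hjk : j = k
    · subst hjk
      simp
    · by_cases hik : i = k
      · subst hik
        have hij : ¬ i = j := fun h => hjk h.symm
        simp only [if_neg hjk, if_true, if_neg hij]
        have := h12 i j i
        have h2 := h23 j i i
        have : a j i i = a i j i := h12 i j i
        linarith
      · by_cases hij : i = j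
        · subst hij
          simp only [if_neg hjk, if_true]
          have h3 : a i i k = a i k i := h23 i k i
          have h4 : a i k i = a k i i := h12 k i i
          linarith
        · simp only [if_neg hjk, if_neg hik, if_neg hij]
          have := h0 i j k
          linarith
  have h2 : ∑ i, ∑ j, ∑ k, ((if j = k then a i j j else 0) +
      (if i = k then (if j = k then 0 else a j k k) else 0) +
      (if i = j then (if j = k then 0 else a k j j) else 0)) ≤ ∑ i, ∑ j, ∑ k, a i j k :=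
    Finset.sum_le_sum fun i _ => Finset.sum_le_sum fun j _ => Finset.sum_le_sum fun k _ =>
      h1 i j k
  refine le_trans (le_of_eq ?_) h2
  simp only [Finset.sum_add_distrib]
  have e1 : ∑ i, ∑ j, ∑ k, (if j = k then a i j j else 0) =
      ∑ j, a j j j + ∑ j, ∑ i, (if i = j then 0 else a i j j) := by
    have : ∀ i, ∑ j, ∑ k, (if j = k then a i j j else 0) = ∑ j, a i j j := by
      intro i
      exact Finset.sum_congr rfl fun j _ => by simp
    simp only [this]
    rw [Finset.sum_comm, ← Finset.sum_add_distrib]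
    refine Finset.sum_congr rfl fun j _ => ?_
    have h3 : ∑ i, a i j j = ∑ i, ((if i = j then a i j j else 0) +
        (if i = j then 0 else a i j j)) := by
      refine Finset.sum_congr rfl fun i _ => ?_
      split_ifs <;> simp
    rw [h3, Finset.sum_add_distrib]
    simp
  have e2 : ∑ i, ∑ j, ∑ k, (if i = k then (if j = k then 0 else a j k k) else 0) =
      ∑ j, ∑ i, (if i = j then 0 else a i j j) := by
    refine Finset.sum_congr rfl fun i _ => Finset.sum_congr rfl fun j _ => ?_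
    simp
  have e3 : ∑ i, ∑ j, ∑ k, (if i = j then (if j = k then 0 else a k j j) else 0) =
      ∑ j, ∑ i, (if i = j then 0 else a i j j) := by
    refine Finset.sum_congr rfl fun i _ => ?_
    rw [Finset.sum_eq_single i]
    · refine Finset.sum_congr rfl fun k _ => ?_
      by_cases h : i = k
      · simp [h]
      · have h' : ¬ k = i := fun h3 => h h3.symm
        simp [h, h']
    · intro j _ hj
      have : ¬ i = j := fun h => hj h.symm
      simp [this]
    · intro h
      exact absurd (Finset.mem_univ _) h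
  rw [e1, e2, e3]
  ring

end Pool.Agent.TH569.HP
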