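import Pool.Agent.TH569.HP.Core

/-!
# One bad decomposable direction
-/

set_option autoImplicit false

namespace Pool.Agent.TH569.HP

open Finset Equiv Hopf6

theorem Skew.add {f g : M6} (hf : Skew f) (hg : Skew g) : Skew (fun a b => f a b + g a b) := by
  intro a b
  simp only
  rw [hf a b, hg a b]
  ring

theorem Skew.smul {f : M6} (hf : Skew f) (t : ℝ) : Skew (fun a b => t * f a b) := by
  intro a b
  simp only
  rw [hf a b]
  ring

theorem wd_skew (p q : Fin 6 → ℝ) : Skew (wd p q) := by
  intro a b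
  unfold wd
  ring

/-- value of a skew form on a pair of vectors -/
def ev (f : M6) (w v : Fin 6 → ℝ) : ℝ := ∑ a, ∑ b, f a b * (w a * v b)

theorem quad_squares {κ : Type} [Fintype κ] (R : Ten) (c : κ → ℝ) (φ : κ → M6)
    (h : ∀ a b a' b', R a b a' b' = ∑ k, c k * (φ k a b * φ k a' b')) (w v : Fin 6 → ℝ) :
    quad R w v = ∑ k, c k * ev (φ k) w v ^ 2 := by
  have h1 : ∀ k, c k * ev (φ k) w v ^ 2 = ∑ a, ∑ b, ∑ a', ∑ b',
      c k * (φ k a b * φ k a' b') * w a * v b * w a' * v b' := by
    intro k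
    unfold ev
    rw [sq, Finset.sum_mul_sum]
    rw [Finset.mul_sum]
    refine Finset.sum_congr rfl fun a _ => ?_
    have h2 : ∀ a', (∑ b, φ k a b * (w a * v b)) * (∑ b', φ k a' b' * (w a' * v b')) =
        ∑ b, ∑ b', φ k a b * (w a * v b) * (φ k a' b' * (w a' * v b')) := by
      intro a'
      rw [Finset.sum_mul_sum]
    simp only [h2]
    rw [Finset.sum_comm, Finset.mul_sum]
    refine Finset.sum_congr rfl fun b _ => ?_
    rw [Finset.mul_sum]
    refine Finset.sum_congr rfl fun a' _ => ?_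
    rw [Finset.mul_sum]
    refine Finset.sum_congr rfl fun b' _ => ?_
    ring
  simp only [h1]
  have h3 : ∀ (f : κ → Fin 6 → Fin 6 → Fin 6 → Fin 6 → ℝ),
      ∑ k, ∑ a, ∑ b, ∑ a', ∑ b', f k a b a' b' = ∑ a, ∑ b, ∑ a', ∑ b', ∑ k, f k a b a' b' := by
    intro f
    rw [Finset.sum_comm]
    refine Finset.sum_congr rfl fun a _ => ?_
    rw [Finset.sum_comm]
    refine Finset.sum_congr rfl fun b _ => ?_
    rw [Finset.sum_comm]
    refine Finset.sum_congr rfl fun a' _ => ?_
    rw [Finset.sum_comm]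
  rw [h3]
  unfold quad
  refine Finset.sum_congr rfl fun a _ => Finset.sum_congr rfl fun b _ =>
    Finset.sum_congr rfl fun a' _ => Finset.sum_congr rfl fun b' _ => ?_
  rw [h, Finset.sum_mul, Finset.sum_mul, Finset.sum_mul, Finset.sum_mul]

theorem sum_option3 {ι : Type} [Fintype ι] (T : Option ι → Option ι → Option ι → ℝ) :
    ∑ i, ∑ j, ∑ k, T i j k = T none none none + ∑ k, T none none (some k) +
      ∑ j, T none (some j) none + ∑ i, T (some i) none none +
      ∑ j, ∑ k, T none (some j) (some k) + ∑ j, ∑ k, T (some j) none (some k) +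
      ∑ j, ∑ k, T (some j) (some k) none + ∑ i, ∑ j, ∑ k, T (some i) (some j) (some k) := by
  rw [Fintype.sum_option, Fintype.sum_option, Fintype.sum_option]
  have h1 : ∀ j : ι, ∑ k, T none (some j) k = T none (some j) none +
      ∑ k, T none (some j) (some k) := fun j => Fintype.sum_option _
  have h2 : ∀ i : ι, ∑ j, ∑ k, T (some i) j k = (T (some i) none none +
      ∑ k, T (some i) none (some k)) + ((∑ j, T (some i) (some j) none) +
      ∑ j, ∑ k, T (some i) (some j) (some k)) := by
    intro i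
    rw [Fintype.sum_option, Fintype.sum_option]
    congr 1
    rw [← Finset.sum_add_distrib]
    exact Finset.sum_congr rfl fun j _ => Fintype.sum_option _
  simp only [h1, h2]
  rw [Finset.sum_add_distrib, Finset.sum_add_distrib, Finset.sum_add_distrib,
    Finset.sum_add_distrib]
  ring

/-- **One bad decomposable direction.** If all sectional values of `R` are nonnegative and
`R + α ν ⊗ ν` is nonnegative on bivectors for a decomposable `ν`, then the integrand is
nonnegative. -/
theorem gb_nonneg_of_decomp {R : Ten} (hanti : ∀ a b c d, R b a c d = - R a b c d)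
    (hpair : ∀ a b c d, R c d a b = R a b c d) (p q : Fin 6 → ℝ) (α : ℝ)
    (hsec : ∀ x y, 0 ≤ quad R x y)
    (hop : ∀ X : Fin 6 × Fin 6 → ℝ, 0 ≤ ∑ i, ∑ j,
      (R i.1 i.2 j.1 j.2 + α * (wd p q i.1 i.2 * wd p q j.1 j.2)) * (X i * X j)) :
    0 ≤ gb R := by
  classical
  set ν : M6 := wd p q with hν
  have hνs : Skew ν := wd_skew p q
  have hνν : ∀ f, PP f ν ν = 0 := fun f => PP_wd f p q
  obtain ⟨F, hF, hB⟩ := adapted_squares
    (Matrix.of fun i j : Fin 6 × Fin 6 => R i.1 i.2 j.1 j.2 + α * (ν i.1 i.2 * ν j.1 j.2))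
    (Matrix.of fun i j : Fin 6 × Fin 6 => PP ν (EE i) (EE j))
    (by
      intro i j
      simp only [Matrix.of_apply]
      rw [hpair j.1 j.2 i.1 i.2]
      ring)
    (by
      intro X
      simp only [Matrix.of_apply]
      exact hop X)
    (by
      intro i j
      simp only [Matrix.of_apply]
      rw [PP_swap23])
  simp only [Matrix.of_apply] at hF hB
  let f : Fin 6 × Fin 6 → M6 := fun j a b => F j (a, b)
  have hF' : ∀ a b c d, R a b c d + α * (ν a b * ν c d) = ∑ j, f j a b * f j c d :=
    fun a b c d => hF (a, b) (c, d)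
  have hfs : ∀ j, Skew (f j) := by
    have h3 : ∀ a b, ∑ j, (f j b a + f j a b) ^ 2 = 0 := by
      intro a b
      have h4 : ∑ j, (f j b a + f j a b) ^ 2 = ∑ j, f j b a * f j b a +
          2 * ∑ j, f j b a * f j a b + ∑ j, f j a b * f j a b := by
        rw [Finset.mul_sum, ← Finset.sum_add_distrib, ← Finset.sum_add_distrib]
        exact Finset.sum_congr rfl fun j _ => by ring
      rw [h4, ← hF', ← hF', ← hF']
      have e1 := hanti a b b a
      have e2 : R b a b a = R a b a b := by
        rw [hanti a b b a, hpair b a a b, hanti a b a b]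
        ring
      have e3 : R b a a b = - R a b a b := hanti a b a b
      have e4 := hνs a b
      rw [e2, e3, e4]
      ring
    intro j a b
    have h5 := (Finset.sum_eq_zero_iff_of_nonneg fun j _ => sq_nonneg _).mp (h3 a b) j
      (Finset.mem_univ _)
    have h6 := pow_eq_zero_iff (two_ne_zero) |>.mp h5
    linarith
  have hdiag : ∀ i j, i ≠ j → PP ν (f i) (f j) = 0 := by
    intro i j hij
    have h1 := hB i j hij
    rw [← PP_EE ν (f i) (f j)]
    exact h1
  -- the sum over `Option`
  let c : Option (Fin 6 × Fin 6) → ℝ := fun o => Option.elim o (-α) (fun _ => 1)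
  let φ : Option (Fin 6 × Fin 6) → M6 := fun o => Option.elim o ν f
  have hR : ∀ a b a' b', R a b a' b' = ∑ o, c o * (φ o a b * φ o a' b') := by
    intro a b a' b'
    rw [Fintype.sum_option]
    simp only [c, φ, Option.elim, one_mul]
    have := hF' a b a' b'
    linarith
  have hν1 : ∀ g, PP ν ν g = 0 := fun g => by rw [← PP_swap13]; exact hνν g
  have hν2 : ∀ g, PP ν g ν = 0 := fun g => by rw [PP_swap12]; exact hνν g
  have hgb : gb R = ∑ i, ∑ j, ∑ k, PP (f i) (f j) (f k) ^ 2 -
      3 * α * ∑ j, PP ν (f j) (f j) ^ 2 := by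
    rw [gb_squares R c φ hR]
    have e0 : ∀ j k, PP ν (f j) (f k) ^ 2 = if j = k then PP ν (f j) (f j) ^ 2 else 0 := by
      intro j k
      split_ifs with h
      · rw [h]
      · rw [hdiag j k h]
        ring
    have e1 : ∑ j, ∑ k, PP ν (f j) (f k) ^ 2 = ∑ j, PP ν (f j) (f j) ^ 2 := by
      refine Finset.sum_congr rfl fun j _ => ?_
      rw [Finset.sum_eq_single j (fun k _ hk => by rw [e0 j k, if_neg (Ne.symm hk)])
        (fun h => absurd (Finset.mem_univ j) h)]
    have e2 : ∑ j, ∑ k, PP (f j) ν (f k) ^ 2 = ∑ j, PP ν (f j) (f j) ^ 2 := by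
      rw [← e1]
      exact Finset.sum_congr rfl fun j _ => Finset.sum_congr rfl fun k _ => by rw [PP_swap12]
    have e3 : ∑ j, ∑ k, PP (f j) (f k) ν ^ 2 = ∑ j, PP ν (f j) (f j) ^ 2 := by
      rw [← e1]
      refine Finset.sum_congr rfl fun j _ => Finset.sum_congr rfl fun k _ => ?_
      rw [PP_swap23, PP_swap12]
    rw [sum_option3]
    have t1 : c none * c none * c none * PP (φ none) (φ none) (φ none) ^ 2 = 0 := by
      show -α * -α * -α * PP ν ν ν ^ 2 = 0
      rw [hνν]; ring
    have t2 : ∀ k, c none * c none * c (some k) * PP (φ none) (φ none) (φ (some k)) ^ 2 = 0 := by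
      intro k
      show -α * -α * 1 * PP ν ν (f k) ^ 2 = 0
      rw [hν1]; ring
    have t3 : ∀ k, c none * c (some k) * c none * PP (φ none) (φ (some k)) (φ none) ^ 2 = 0 := by
      intro k
      show -α * 1 * -α * PP ν (f k) ν ^ 2 = 0
      rw [hν2]; ring
    have t4 : ∀ k, c (some k) * c none * c none * PP (φ (some k)) (φ none) (φ none) ^ 2 = 0 := by
      intro k
      show 1 * -α * -α * PP (f k) ν ν ^ 2 = 0
      rw [hνν]; ring
    have t5 : ∀ j k, c none * c (some j) * c (some k) * PP (φ none) (φ (some j)) (φ (some k)) ^ 2 =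
        -α * PP ν (f j) (f k) ^ 2 := by
      intro j k
      show -α * 1 * 1 * PP ν (f j) (f k) ^ 2 = -α * PP ν (f j) (f k) ^ 2
      ring
    have t6 : ∀ j k, c (some j) * c none * c (some k) * PP (φ (some j)) (φ none) (φ (some k)) ^ 2 =
        -α * PP (f j) ν (f k) ^ 2 := by
      intro j k
      show 1 * -α * 1 * PP (f j) ν (f k) ^ 2 = -α * PP (f j) ν (f k) ^ 2
      ring
    have t7 : ∀ j k, c (some j) * c (some k) * c none * PP (φ (some j)) (φ (some k)) (φ none) ^ 2 =
        -α * PP (f j) (f k) ν ^ 2 := by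
      intro j k
      show 1 * 1 * -α * PP (f j) (f k) ν ^ 2 = -α * PP (f j) (f k) ν ^ 2
      ring
    have t8 : ∀ i j k, c (some i) * c (some j) * c (some k) *
        PP (φ (some i)) (φ (some j)) (φ (some k)) ^ 2 = PP (f i) (f j) (f k) ^ 2 := by
      intro i j k
      show 1 * 1 * 1 * PP (f i) (f j) (f k) ^ 2 = PP (f i) (f j) (f k) ^ 2
      ring
    have e4 : ∀ (g : Fin 6 × Fin 6 → Fin 6 × Fin 6 → ℝ),
        ∑ j, ∑ k, -α * g j k = -α * ∑ j, ∑ k, g j k := by
      intro g
      rw [Finset.mul_sum]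
      exact Finset.sum_congr rfl fun j _ => by rw [Finset.mul_sum]
    rw [t1, Finset.sum_congr rfl (fun k _ => t2 k), Finset.sum_congr rfl (fun k _ => t3 k),
      Finset.sum_congr rfl (fun k _ => t4 k),
      Finset.sum_congr rfl (fun j _ => Finset.sum_congr rfl fun k _ => t5 j k),
      Finset.sum_congr rfl (fun j _ => Finset.sum_congr rfl fun k _ => t6 j k),
      Finset.sum_congr rfl (fun j _ => Finset.sum_congr rfl fun k _ => t7 j k),
      Finset.sum_congr rfl (fun i _ => Finset.sum_congr rfl fun j _ =>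
        Finset.sum_congr rfl fun k _ => t8 i j k),
      e4 (fun j k => PP ν (f j) (f k) ^ 2), e4 (fun j k => PP (f j) ν (f k) ^ 2),
      e4 (fun j k => PP (f j) (f k) ν ^ 2), e1, e2, e3, Finset.sum_const_zero]
    ring
  -- the inequality for each `j`
  have hj : ∀ j, α * PP ν (f j) (f j) ^ 2 - PP (f j) (f j) (f j) ^ 2 / 9 ≤
      ∑ i, (if i = j then 0 else PP (f i) (f j) (f j) ^ 2) := by
    intro j
    have hnn : 0 ≤ ∑ i, (if i = j then 0 else PP (f i) (f j) (f j) ^ 2) :=
      Finset.sum_nonneg fun i _ => by split_ifs <;> positivity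
    by_cases hb : PP ν (f j) (f j) = 0
    · rw [hb]
      nlinarith [sq_nonneg (PP (f j) (f j) (f j))]
    set s : ℝ := - PP (f j) (f j) (f j) / (3 * PP ν (f j) (f j)) with hs
    have hs' : 3 * s * PP ν (f j) (f j) = - PP (f j) (f j) (f j) := by
      rw [hs]
      field_simp
    set x : M6 := fun a b => f j a b + s * ν a b with hx
    have hxs : Skew x := (hfs j).add (hνs.smul s)
    have hgx : ∀ g, PP g x x = PP g (f j) (f j) + 2 * s * PP g ν (f j) := by
      intro g
      rw [hx, PP_add2, PP_add3, PP_add3, PP_smul2, PP_smul2, PP_smul3, PP_smul3, hνν,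
        PP_swap23 g ν (f j)]
      ring
    have hxx : PP x x x = 0 := by
      have h1 : PP x x x = PP (f j) x x + s * PP ν x x := by
        conv_lhs => rw [hx]
        rw [PP_add1, PP_smul1]
      rw [h1, hgx, hgx, hν1, PP_swap12 ν (f j) (f j)]
      linarith
    obtain ⟨w, hw, hk⟩ := exists_kernel hxs hxx
    obtain ⟨v, hv⟩ := decomp_of_kernel hxs hw hk
    have h2 := hsec w v
    rw [quad_squares R c φ hR, Fintype.sum_option] at h2
    simp only [c, φ, Option.elim, one_mul] at h2
    have h3 : ∀ g, Skew g → ev g w v = PP g x x := fun g hg => (hv g hg).symm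
    rw [h3 ν hνs] at h2
    simp only [h3 _ (hfs _)] at h2
    have h4 : PP ν x x = PP ν (f j) (f j) := by
      rw [hgx, hν1]
      ring
    have h5 : ∑ i, PP (f i) x x ^ 2 = (PP (f j) (f j) (f j) / 3) ^ 2 +
        ∑ i, (if i = j then 0 else PP (f i) (f j) (f j) ^ 2) := by
      have h6 : ∀ i, PP (f i) x x ^ 2 = (if i = j then (PP (f j) (f j) (f j) / 3) ^ 2 else 0) +
          (if i = j then 0 else PP (f i) (f j) (f j) ^ 2) := by
        intro i
        split_ifs with h
        · subst h
          rw [hgx, PP_swap12 ν (f i) (f i)]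
          have : 2 * s * PP ν (f i) (f i) = - (2 / 3) * PP (f i) (f i) (f i) := by linarith
          rw [this]
          ring
        · rw [hgx, PP_swap12 ν (f i) (f j), hdiag i j h]
          ring
      simp only [h6]
      rw [Finset.sum_add_distrib]
      simp
    rw [h4, h5] at h2
    nlinarith [h2]
  have htri := triple_ge (fun i j k => PP (f i) (f j) (f k) ^ 2) (fun i j k => sq_nonneg _)
    (fun i j k => by rw [PP_swap12]) (fun i j k => by rw [PP_swap23])
  rw [hgb]
  have h7 : ∑ j, (α * PP ν (f j) (f j) ^ 2 - PP (f j) (f j) (f j) ^ 2 / 9) ≤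
      ∑ j, ∑ i, (if i = j then 0 else PP (f i) (f j) (f j) ^ 2) :=
    Finset.sum_le_sum fun j _ => hj j
  rw [Finset.sum_sub_distrib, ← Finset.mul_sum, ← Finset.sum_div] at h7
  have h8 : 0 ≤ ∑ j, PP (f j) (f j) (f j) ^ 2 := Finset.sum_nonneg fun j _ => sq_nonneg _
  linarith

end Pool.Agent.TH569.HP
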