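import Pool.Agent.TH569.HP.Pert
import Pool.Agent.TH569.HP.Abs

/-!
# Tensors that are nonnegative on the bivectors of every hyperplane
-/

set_option autoImplicit false

namespace Pool.Agent.TH569.HP

open Finset Equiv Hopf6

/-- transposed array -/
def fl (X : M6) : M6 := fun a b => X b a

theorem bl_fl {T : Ten} (hanti : ∀ a b c d, T b a c d = - T a b c d) (X Y : M6) :
    bl T (fl X) Y = - bl T X Y := by
  unfold bl fl
  rw [Finset.sum_comm]
  simp only [← Finset.sum_neg_distrib]
  refine Finset.sum_congr rfl fun a _ => Finset.sum_congr rfl fun b _ =>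
    Finset.sum_congr rfl fun c _ => Finset.sum_congr rfl fun d _ => ?_
  rw [hanti a b c d]
  ring

/-- antisymmetrised array -/
def ds (X : M6) : M6 := fun a b => X a b - X b a

theorem ds_skew (X : M6) : Skew (ds X) := by
  intro a b
  unfold ds
  ring

theorem ds_eq (X : M6) : ds X = X + (-1 : ℝ) • fl X := by
  funext a b
  show X a b - X b a = X a b + (-1) * X b a
  ring

theorem bl_ds {T : Ten} (hanti : ∀ a b c d, T b a c d = - T a b c d) (X Y : M6) :
    bl T (ds X) Y = 2 * bl T X Y := by
  rw [ds_eq, bl_add_left, bl_smul_left, bl_fl hanti]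
  ring

theorem bl_ds2 {T : Ten} (hanti : ∀ a b c d, T b a c d = - T a b c d)
    (hpair : ∀ a b c d, T c d a b = T a b c d) (X : M6) :
    bl T (ds X) (ds X) = 4 * bl T X X := by
  rw [bl_ds hanti, bl_comm hpair, bl_ds hanti]
  ring

theorem wd_ds (x y : Fin 6 → ℝ) : ds (fun a b => x a * y b) = wd x y := by
  funext a b
  unfold ds wd
  ring

theorem quad_wd {T : Ten} (hanti : ∀ a b c d, T b a c d = - T a b c d)
    (hpair : ∀ a b c d, T c d a b = T a b c d) (x y : Fin 6 → ℝ) :
    bl T (wd x y) (wd x y) = 4 * quad T x y := by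
  rw [← wd_ds, bl_ds2 hanti hpair, quad_bl]

theorem PP_cubic (Z X : M6) (t : ℝ) : PP (t • Z + X) (t • Z + X) (t • Z + X) =
    PP Z Z Z * t ^ 3 + (3 * PP Z Z X) * t ^ 2 + (3 * PP Z X X) * t + PP X X X := by
  have e : t • Z + X = fun a b => t * Z a b + X a b := rfl
  have a1 : ∀ g h, PP (fun a b => t * Z a b + X a b) g h = t * PP Z g h + PP X g h := by
    intro g h
    rw [PP_add1 (fun a b => t * Z a b), PP_smul1]
  have a2 : ∀ g h, PP g (fun a b => t * Z a b + X a b) h = t * PP g Z h + PP g X h := by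
    intro g h
    rw [PP_add2 g (fun a b => t * Z a b), PP_smul2]
  have a3 : ∀ g h, PP g h (fun a b => t * Z a b + X a b) = t * PP g h Z + PP g h X := by
    intro g h
    rw [PP_add3 g h (fun a b => t * Z a b), PP_smul3]
  rw [e, a1, a2, a2, a3, a3, a3, a3, PP_swap23 Z Z X, PP_swap12 Z X Z, PP_swap23 Z Z X,
    PP_swap13 X Z Z, PP_swap12 Z X X, PP_swap13 Z X X, PP_swap23]
  ring

/-- the symmetrizer -/
noncomputable def Sy : Ten := fun a b c d => dl a c * dl b d + dl a d * dl b c

theorem Sy_pair (a b c d : Fin 6) : Sy c d a b = Sy a b c d := by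
  unfold Sy
  rw [dl_comm c a, dl_comm d b, dl_comm c b, dl_comm d a]
  ring

theorem bl_Sy (X Y : M6) : bl Sy X Y = ∑ a, ∑ b, X a b * (Y a b + Y b a) := by
  unfold bl
  refine Finset.sum_congr rfl fun a _ => Finset.sum_congr rfl fun b _ => ?_
  have h2 : ∀ c, ∑ d, Sy a b c d * (X a b * Y c d) =
      dl a c * (X a b * Y c b) + dl b c * (X a b * Y c a) := by
    intro c
    have h3 : ∀ d, Sy a b c d * (X a b * Y c d) =
        dl b d * (dl a c * (X a b * Y c d)) + dl a d * (dl b c * (X a b * Y c d)) := by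
      intro d
      unfold Sy
      ring
    simp only [h3]
    rw [Finset.sum_add_distrib, sum_ind b, sum_ind a]
  simp only [h2]
  rw [Finset.sum_add_distrib, sum_ind a, sum_ind b]
  ring

theorem bl_Sy_sq (X : M6) : bl Sy X X = 1 / 2 * ∑ a, ∑ b, (X a b + X b a) ^ 2 := by
  have h5 : ∑ a, ∑ b, X a b * (X a b + X b a) =
      ∑ a, ∑ b, X b a * (X b a + X a b) := Finset.sum_comm
  have h7 : 2 * bl Sy X X = ∑ a, ∑ b, X a b * (X a b + X b a) +
      ∑ a, ∑ b, X b a * (X b a + X a b) := by
    rw [← h5, bl_Sy]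
    ring
  have h8 : ∑ a, ∑ b, X a b * (X a b + X b a) + ∑ a, ∑ b, X b a * (X b a + X a b) =
      ∑ a, ∑ b, (X a b + X b a) ^ 2 := by
    simp only [← Finset.sum_add_distrib]
    refine Finset.sum_congr rfl fun a _ => Finset.sum_congr rfl fun b _ => ?_
    ring
  linarith

theorem sum2_zero {f : Fin 6 → Fin 6 → ℝ} (hf : ∀ a b, 0 ≤ f a b)
    (h : ∑ a, ∑ b, f a b = 0) (a b : Fin 6) : f a b = 0 := by
  have h1 := (Finset.sum_eq_zero_iff_of_nonneg fun a _ =>
    Finset.sum_nonneg fun b _ => hf a b).mp h a (Finset.mem_univ _)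
  exact (Finset.sum_eq_zero_iff_of_nonneg fun b _ => hf a b).mp h1 b (Finset.mem_univ _)

theorem bl_expand (T : Ten) (t : ℝ) (Z X : M6) : bl T (t • Z + X) (t • Z + X) =
    t ^ 2 * bl T Z Z + t * bl T Z X + t * bl T X Z + bl T X X := by
  rw [bl_add_left, bl_add_right, bl_add_right, bl_smul_left, bl_smul_left, bl_smul_right,
    bl_smul_right]
  ring

/-- a strictly negative skew form gives a positive definite correction, on skew arrays -/
theorem neg_dir {T : Ten} (hpair : ∀ a b c d, T c d a b = T a b c d)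
    (hD : ∀ X : M6, Skew X → X ≠ 0 → ∀ w : Fin 6 → ℝ, w ≠ 0 → (∀ a, ∑ b, X a b * w b = 0) →
      0 < bl T X X) {Z : M6} (hZ : Skew Z) {a : ℝ} (ha : 0 < a) (hZa : bl T Z Z = -a)
    {D : M6} (hDs : Skew D) (hD0 : D ≠ 0) : 0 < bl T D D + 2 / a * bl T Z D ^ 2 := by
  have hZ0 : PP Z Z Z ≠ 0 := by
    intro h
    obtain ⟨w, hw, hk⟩ := exists_kernel hZ h
    have hZne : Z ≠ 0 := by
      intro h0
      have : bl T Z Z = 0 := by
        rw [h0]
        unfold bl
        simp
      linarith
    have := hD Z hZ hZne w hw hk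
    linarith
  set m : ℝ := bl T Z D with hm
  set t : ℝ := - m / a with ht
  have hta : t * a = - m := by
    rw [ht]
    field_simp
  -- `X = D - t Z`
  obtain ⟨X, hX⟩ : ∃ X : M6, X = D + (-t) • Z := ⟨_, rfl⟩
  have hXs : Skew X := by
    intro i j
    rw [hX]
    show D j i + (-t) * Z j i = -(D i j + (-t) * Z i j)
    rw [hDs i j, hZ i j]
    ring
  have hDX : D = t • Z + X := by
    rw [hX]
    funext i j
    show D i j = t * Z i j + (D i j + (-t) * Z i j)
    ring
  have hZX : bl T Z X = 0 := by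
    rw [hX, bl_add_right, bl_smul_right, hZa, ← hm]
    linarith
  have hXZ : bl T X Z = 0 := by rw [bl_comm hpair, hZX]
  have hDD : bl T D D = bl T X X - a * t ^ 2 := by
    rw [hDX, bl_expand, hZX, hXZ, hZa]
    ring
  have hmm : 2 / a * m ^ 2 = 2 * a * t ^ 2 := by
    have : m = - (t * a) := by linarith
    rw [this]
    field_simp
  rw [hDD, hmm]
  by_cases hX0 : X = 0
  · have ht0 : t ≠ 0 := by
      intro h
      apply hD0
      rw [hDX, hX0, h]
      funext i j
      show 0 * Z i j + (0:ℝ) = 0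
      ring
    have h1 : bl T X X = 0 := by
      rw [hX0]
      unfold bl
      simp
    rw [h1]
    have : 0 < a * t ^ 2 := by positivity
    linarith
  · have h2 : 0 < bl T X X := by
      obtain ⟨s, hs⟩ := cubic_root (A := PP Z Z Z) (B := 3 * PP Z Z X) (C := 3 * PP Z X X)
        (D := PP X X X) hZ0
      rw [← PP_cubic] at hs
      have hYs : Skew (s • Z + X) := by
        intro i j
        show s * Z j i + X j i = -(s * Z i j + X i j)
        rw [hXs i j, hZ i j]
        ring
      obtain ⟨w, hw, hk⟩ := exists_kernel hYs hs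
      by_cases hY0 : s • Z + X = 0
      · exfalso
        have h3 : bl T Z (s • Z + X) = - (s * a) := by
          rw [bl_add_right, bl_smul_right, hZa, hZX]
          ring
        have h4 : bl T Z (s • Z + X) = 0 := by
          rw [hY0]
          unfold bl
          simp
        have h5 : s = 0 := by
          have h6 : s * a = 0 := by linarith
          rcases mul_eq_zero.mp h6 with h | h
          · exact h
          · exact absurd h ha.ne'
        apply hX0
        rw [h5] at hY0
        simpa using hY0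
      · have h3 := hD _ hYs hY0 w hw hk
        have h4 : bl T (s • Z + X) (s • Z + X) = bl T X X - a * s ^ 2 := by
          rw [bl_expand, hZX, hXZ, hZa]
          ring
        rw [h4] at h3
        have : 0 ≤ a * s ^ 2 := by positivity
        linarith
    have : 0 ≤ a * t ^ 2 := by positivity
    linarith

end Pool.Agent.TH569.HP
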