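import Pool.Agent.TH569.HP.Stief

/-!
# Tensors that are nonnegative on the bivectors of every hyperplane: the main theorem
-/

set_option autoImplicit false

namespace Pool.Agent.TH569.HP

open Finset Equiv Hopf6

theorem bl_zero_left (T : Ten) (Y : M6) : bl T 0 Y = 0 := by
  have := bl_smul_left T 0 0 Y
  rw [zero_smul, zero_mul] at this
  exact this

theorem exists_plane {T : Ten} (hanti : ∀ a b c d, T b a c d = - T a b c d)
    (hpair : ∀ a b c d, T c d a b = T a b c d)
    (hD : ∀ X : M6, Skew X → X ≠ 0 → ∀ w : Fin 6 → ℝ, w ≠ 0 → (∀ a, ∑ b, X a b * w b = 0) →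
      0 < bl T X X) {Z : M6} (hZ : Skew Z) (hneg : bl T Z Z < 0) :
    ∃ p q : Fin 6 → ℝ, (∃ e : M6, pg (wd p q) e = 1) ∧
      ∀ X : M6, pg (wd p q) X = 0 → 0 ≤ bl T X X := by
  obtain ⟨a, ha, hZa⟩ : ∃ a : ℝ, 0 < a ∧ bl T Z Z = -a :=
    ⟨- bl T Z Z, by linarith, by ring⟩
  obtain ⟨ω, hω⟩ : ∃ ω : M6, ω = tp T Z := ⟨_, rfl⟩
  have hωX : ∀ X, pg ω X = bl T X Z := fun X => by rw [hω, pg_tp]
  obtain ⟨P, hP⟩ : ∃ P : Ten, P = fun i j k l => (T i j k l + 2 / a * (ω i j * ω k l)) +
      Sy i j k l := ⟨_, rfl⟩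
  have hPe : ∀ X Y, bl P X Y = bl T X Y + 2 / a * (bl T X Z * bl T Y Z) + bl Sy X Y := by
    intro X Y
    rw [hP, bl_tadd (fun i j k l => T i j k l + 2 / a * (ω i j * ω k l)) Sy,
      bl_tadd T (fun i j k l => 2 / a * (ω i j * ω k l)),
      bl_tsmul (2 / a) (fun i j k l => ω i j * ω k l), bl_prod, hωX, hωX]
  have hPc : ∀ X Y, bl P X Y = bl P Y X := by
    intro X Y
    rw [hPe, hPe, bl_comm hpair X Y, bl_comm Sy_pair X Y]
    ring
  have hSy0 : ∀ X Y : M6, Skew Y → bl Sy X Y = 0 := by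
    intro X Y hY
    rw [bl_Sy]
    refine Finset.sum_eq_zero fun i _ => Finset.sum_eq_zero fun j _ => ?_
    rw [hY i j]
    ring
  -- positivity
  have hPpos : ∀ X : M6, X ≠ 0 → 0 < bl P X X := by
    intro X hX
    rw [hPe]
    have h1 : bl T (ds X) (ds X) = 4 * bl T X X := bl_ds2 hanti hpair X
    have h2 : bl T Z (ds X) = 2 * bl T X Z := by rw [bl_comm hpair, bl_ds hanti]
    by_cases h0 : ds X = 0
    · have h3 : bl T X X = 0 := by
        rw [h0, bl_zero_left] at h1
        linarith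
      have h4 : 0 < bl Sy X X := by
        rw [bl_Sy_sq]
        have h5 : 0 ≤ ∑ i, ∑ j, (X i j + X j i) ^ 2 :=
          Finset.sum_nonneg fun i _ => Finset.sum_nonneg fun j _ => sq_nonneg _
        rcases h5.lt_or_eq with h6 | h6
        · linarith
        · exfalso
          apply hX
          funext i j
          have h7 := sum2_zero (f := fun i j => (X i j + X j i) ^ 2) (fun i j => sq_nonneg _)
            h6.symm i j
          have h8 : X i j + X j i = 0 := pow_eq_zero_iff (two_ne_zero) |>.mp h7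
          have h9 : X i j - X j i = 0 := congrFun (congrFun h0 i) j
          show X i j = 0
          linarith
      have h5 : 0 ≤ 2 / a * (bl T X Z * bl T X Z) :=
        mul_nonneg (by positivity) (mul_self_nonneg _)
      linarith
    · have h3 := neg_dir hpair hD hZ ha hZa (ds_skew X) h0
      rw [h1, h2] at h3
      have h4 : 0 ≤ bl Sy X X := by
        rw [bl_Sy_sq]
        have h5 : 0 ≤ ∑ i, ∑ j, (X i j + X j i) ^ 2 :=
          Finset.sum_nonneg fun i _ => Finset.sum_nonneg fun j _ => sq_nonneg _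
        linarith
      nlinarith [h3, h4]
  have hPnn : ∀ X : M6, 0 ≤ bl P X X := by
    intro X
    by_cases h : X = 0
    · rw [h, bl_zero_left]
    · exact (hPpos X h).le
  -- inverse
  have hinj : Function.Injective (tp P) := by
    rw [← LinearMap.ker_eq_bot, LinearMap.ker_eq_bot']
    intro X hX
    by_contra h
    have h1 := hPpos X h
    rw [← pg_tp, hX] at h1
    have h2 : pg 0 X = 0 := by
      have := pg_smul_left 0 0 X
      rw [zero_smul, zero_mul] at this
      exact this
    linarith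
  obtain ⟨G, hG⟩ : ∃ G : M6 →ₗ[ℝ] M6, ∀ u, tp P (G u) = u := by
    refine ⟨(LinearEquiv.ofInjectiveEndo (tp P) hinj).symm.toLinearMap, fun u => ?_⟩
    exact (LinearEquiv.ofInjectiveEndo (tp P) hinj).apply_symm_apply u
  have hGc : Continuous G := G.continuous_of_finiteDimensional
  have hGp : ∀ u Y, bl P Y (G u) = pg u Y := by
    intro u Y
    rw [← pg_tp, hG]
  have hGsym : ∀ u v, pg u (G v) = pg v (G u) := by
    intro u v
    rw [← hGp, ← hGp, hPc]
  have hκpos : ∀ u : M6, u ≠ 0 → 0 < pg u (G u) := by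
    intro u hu
    rw [← hGp]
    apply hPpos
    intro h
    apply hu
    rw [← hG u, h, map_zero]
  have hwd0 : ∀ v ∈ St, wd v.1 v.2 ≠ 0 := by
    intro v hv h
    have h1 : pg (wd v.1 v.2) (wd v.1 v.2) = 2 := by
      rw [pg_wd (wd_skew _ _)]
      have h2 : ∀ a, ∑ b, wd v.1 v.2 a b * v.2 b = v.1 a := by
        intro a
        have h3 : ∀ b, wd v.1 v.2 a b * v.2 b = v.1 a * v.2 b ^ 2 - v.2 a * (v.1 b * v.2 b) := by
          intro b
          unfold wd
          ring
        simp only [h3]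
        rw [Finset.sum_sub_distrib, ← Finset.mul_sum, ← Finset.mul_sum, hv.2.1, hv.2.2]
        ring
      simp only [h2]
      have h4 : ∑ a, v.1 a * v.1 a = 1 := by
        rw [← hv.1]
        exact Finset.sum_congr rfl fun a _ => (pow_two _).symm
      rw [h4]
      ring
    rw [h] at h1
    have h2 : pg (0 : M6) 0 = 0 := by
      have := pg_smul_left 0 0 0
      rw [zero_smul, zero_mul] at this
      exact this
    linarith
  -- maximum
  have hwdc : Continuous fun v : (Fin 6 → ℝ) × (Fin 6 → ℝ) => wd v.1 v.2 := by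
    unfold wd
    fun_prop
  have hcz : Continuous fun v : (Fin 6 → ℝ) × (Fin 6 → ℝ) => pg (wd v.1 v.2) Z := by
    unfold pg wd
    fun_prop
  have hck : Continuous fun v : (Fin 6 → ℝ) × (Fin 6 → ℝ) =>
      pg (wd v.1 v.2) (G (wd v.1 v.2)) := by
    have h1 : Continuous fun v : (Fin 6 → ℝ) × (Fin 6 → ℝ) => G (wd v.1 v.2) := hGc.comp hwdc
    unfold pg
    refine continuous_finsetSum _ fun i _ => continuous_finsetSum _ fun j _ => ?_
    refine Continuous.mul ?_ ?_
    · exact (continuous_apply j).comp ((continuous_apply i).comp hwdc)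
    · exact (continuous_apply j).comp ((continuous_apply i).comp h1)
  obtain ⟨v, hv, hmax⟩ := St_compact.exists_isMaxOn St_nonempty
    (f := fun v => pg (wd v.1 v.2) Z ^ 2 / pg (wd v.1 v.2) (G (wd v.1 v.2)))
    ((hcz.pow 2).continuousOn.div hck.continuousOn fun v hv => (hκpos _ (hwd0 v hv)).ne')
  obtain ⟨p, q⟩ := v
  obtain ⟨η, hη⟩ : ∃ η : M6, η = wd p q := ⟨_, rfl⟩
  obtain ⟨κ, hκ⟩ : ∃ κ : ℝ, κ = pg η (G η) := ⟨_, rfl⟩
  obtain ⟨z, hz⟩ : ∃ z : ℝ, z = pg η Z := ⟨_, rfl⟩
  have hη0 : η ≠ 0 := by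
    rw [hη]
    exact hwd0 _ hv
  have hκ0 : 0 < κ := by
    rw [hκ]
    exact hκpos _ hη0
  have hglob : ∀ p' q' : Fin 6 → ℝ, pg (wd p' q') Z ^ 2 * κ ≤
      z ^ 2 * pg (wd p' q') (G (wd p' q')) := by
    intro p' q'
    obtain ⟨v', hv', c, hc⟩ := exists_St p' q'
    have h1 := hmax hv'
    simp only [Set.mem_ofPred_eq] at h1
    rw [← hη, ← hκ, ← hz] at h1
    have h2 := hκpos _ (hwd0 v' hv')
    rw [div_le_div_iff₀ h2 hκ0] at h1
    rw [hc, map_smul, pg_smul_left, pg_smul_left, pg_smul_right]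
    have h3 := mul_le_mul_of_nonneg_left h1 (sq_nonneg c)
    calc (c * pg (wd v'.1 v'.2) Z) ^ 2 * κ = c ^ 2 * (pg (wd v'.1 v'.2) Z ^ 2 * κ) := by ring
      _ ≤ _ := h3
      _ = _ := by ring
  have hZ0 : Z ≠ 0 := by
    intro h
    rw [h, bl_zero_left] at hneg
    exact lt_irrefl _ hneg
  have hz0 : z ≠ 0 := by
    obtain ⟨i, j, hij⟩ : ∃ i j, Z i j ≠ 0 := by
      by_contra hcon
      push Not at hcon
      exact hZ0 (funext fun i => funext fun j => hcon i j)
    have h1 := hglob (dl i) (dl j)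
    have h2 : pg (wd (dl i) (dl j)) Z = 2 * Z i j := by
      rw [pg_wd hZ, sum_ind]
      have : ∑ b, Z i b * dl j b = Z i j := by
        have h3 : ∀ b, Z i b * dl j b = dl j b * Z i b := fun b => mul_comm _ _
        simp only [h3]
        rw [sum_ind]
      rw [this]
    rw [h2] at h1
    intro h
    rw [h] at h1
    have h3 : 0 < (2 * Z i j) ^ 2 * κ := by positivity
    linarith
  -- the vector `X = G η`
  obtain ⟨X, hX⟩ : ∃ X : M6, X = G η := ⟨_, rfl⟩
  have hXP : ∀ Y, bl P Y X = pg η Y := fun Y => by rw [hX, hGp]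
  have hηs : Skew η := by
    rw [hη]
    exact wd_skew p q
  have hXs : Skew X := by
    obtain ⟨S, hS⟩ : ∃ S : M6, S = fun i j => X i j + X j i := ⟨_, rfl⟩
    have hSsym : ds S = 0 := by
      rw [hS]
      funext i j
      show X i j + X j i - (X j i + X i j) = 0
      ring
    have hTS : ∀ Y, bl T S Y = 0 := by
      intro Y
      have h1 := bl_ds hanti S Y
      rw [hSsym, bl_zero_left] at h1
      linarith
    have h1 := hXP S
    rw [hPe, hTS, hTS, zero_mul, mul_zero] at h1
    have h2 : pg η S = 0 := by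
      have h3 : pg η S = ∑ i, ∑ j, η i j * S i j := rfl
      have h4 : ∑ i, ∑ j, η i j * S i j = ∑ i, ∑ j, η j i * S j i := Finset.sum_comm
      have h5 : ∑ i, ∑ j, η j i * S j i = - ∑ i, ∑ j, η i j * S i j := by
        simp only [← Finset.sum_neg_distrib]
        refine Finset.sum_congr rfl fun i _ => Finset.sum_congr rfl fun j _ => ?_
        have h6 : S j i = S i j := by
          rw [hS]
          show X j i + X i j = X i j + X j i
          ring
        rw [hηs i j, h6]
        ring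
      linarith
    rw [h2, bl_Sy] at h1
    have h3 : ∑ i, ∑ j, S i j * (X i j + X j i) = ∑ i, ∑ j, (X i j + X j i) ^ 2 := by
      refine Finset.sum_congr rfl fun i _ => Finset.sum_congr rfl fun j _ => ?_
      rw [hS]
      ring
    intro i j
    have h4 := sum2_zero (f := fun i j => (X i j + X j i) ^ 2) (fun i j => sq_nonneg _)
      (by linarith) i j
    have h5 : X i j + X j i = 0 := pow_eq_zero_iff (two_ne_zero) |>.mp h4
    linarith
  -- first order condition
  have hfirst : ∀ r : Fin 6 → ℝ, z * pg (wd r q) X = pg (wd r q) Z * κ := by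
    intro r
    have h1 : ∀ t : ℝ, 0 ≤ 2 * t * (z ^ 2 * pg (wd r q) X - z * (pg (wd r q) Z * κ)) +
        t ^ 2 * (z ^ 2 * pg (wd r q) (G (wd r q)) - pg (wd r q) Z ^ 2 * κ) := by
      intro t
      have h2 := hglob (p + t • r) q
      have h3 : wd (p + t • r) q = η + t • wd r q := by
        rw [hη]
        funext i j
        show (p i + t * r i) * q j - q i * (p j + t * r j) =
          (p i * q j - q i * p j) + t * (r i * q j - q i * r j)
        ring
      rw [h3, map_add, map_smul] at h2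
      simp only [pg_add_left, pg_add_right, pg_smul_left, pg_smul_right] at h2
      rw [← hz, ← hκ, hGsym η (wd r q), ← hX] at h2
      have h4 : 2 * t * (z ^ 2 * pg (wd r q) X - z * (pg (wd r q) Z * κ)) +
          t ^ 2 * (z ^ 2 * pg (wd r q) (G (wd r q)) - pg (wd r q) Z ^ 2 * κ) =
          z ^ 2 * (κ + t * pg (wd r q) X + t * (pg (wd r q) X + t * pg (wd r q) (G (wd r q)))) -
            (z + t * pg (wd r q) Z) ^ 2 * κ := by ring
      rw [h4]
      linarith
    have h2 := lin_zero h1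
    have h3 : z * (z * pg (wd r q) X - pg (wd r q) Z * κ) = 0 := by
      rw [← h2]
      ring
    rcases mul_eq_zero.mp h3 with h | h
    · exact absurd h hz0
    · linarith
  obtain ⟨Y, hY⟩ : ∃ Y : M6, Y = κ⁻¹ • X - z⁻¹ • Z := ⟨_, rfl⟩
  have hYs : Skew Y := by
    intro i j
    rw [hY]
    show κ⁻¹ * X j i - z⁻¹ * Z j i = -(κ⁻¹ * X i j - z⁻¹ * Z i j)
    rw [hXs i j, hZ i j]
    ring
  have hYk : ∀ i, ∑ b, Y i b * q b = 0 := by
    intro i
    have h1 : pg (wd (dl i) q) Y = 0 := by
      rw [hY, pg_sub_right, pg_smul_right, pg_smul_right]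
      have := hfirst (dl i)
      field_simp
      linarith
    rw [pg_wd hYs, sum_ind] at h1
    linarith
  have hq0 : q ≠ 0 := by
    intro h
    have h1 := hv.2.1
    rw [h] at h1
    simp at h1
  have hYT : 0 ≤ bl T Y Y := by
    by_cases h : Y = 0
    · rw [h, bl_zero_left]
    · exact (hD Y hYs h q hq0 hYk).le
  have hPT : ∀ V : M6, Skew V → bl P V V - 2 / a * bl P Z V ^ 2 = bl T V V := by
    intro V hVs
    rw [hPe, hPe, hSy0 _ _ hVs, hSy0 _ _ hVs, hZa, bl_comm hpair Z V]
    field_simp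
    ring
  have hmain := fun V (hV : bl P X V = 0) =>
    abs_lemma (Bf P) (fun x y => hPc x y) (fun x => hPnn x) Z X ha hκ0 hz0
      (by
        rw [Bf_apply, hPe, hSy0 _ _ hZ, hZa]
        field_simp
        ring)
      (by
        rw [Bf_apply, hXP, hκ, hX])
      (by
        rw [Bf_apply, hPc, hXP, hz])
      (by
        rw [← hY, Bf_apply, Bf_apply, hPT Y hYs]
        exact hYT) (V := V) hV
  refine ⟨p, q, ⟨z⁻¹ • Z, ?_⟩, fun W hW => ?_⟩
  · rw [pg_smul_right, ← hη, ← hz]
    exact inv_mul_cancel₀ hz0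
  · have h1 : pg η (ds W) = 0 := by
      rw [ds_eq, pg_add_right, pg_smul_right]
      have h2 : pg η (fl W) = - pg η W := by
        have h3 : pg η (fl W) = ∑ i, ∑ j, η i j * W j i := rfl
        rw [h3, Finset.sum_comm]
        unfold pg
        simp only [← Finset.sum_neg_distrib]
        refine Finset.sum_congr rfl fun i _ => Finset.sum_congr rfl fun j _ => ?_
        rw [hηs i j]
        ring
      rw [h2, hη, hW]
      ring
    have h2 := hmain (ds W) (by rw [hPc, hXP, h1])
    rw [Bf_apply, Bf_apply, hPT _ (ds_skew W), bl_ds2 hanti hpair] at h2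
    linarith

/-- **Nonnegative on the bivectors of every hyperplane, in coordinates.** -/
theorem gb_nonneg_hyper {R : Ten} (hanti : ∀ a b c d, R b a c d = - R a b c d)
    (hpair : ∀ a b c d, R c d a b = R a b c d)
    (hD : ∀ X : M6, Skew X → ∀ w : Fin 6 → ℝ, w ≠ 0 → (∀ a, ∑ b, X a b * w b = 0) →
      0 ≤ bl R X X) : 0 ≤ gb R := by
  refine gb_limit fun δ hδ => ?_
  have hanti' := Rd_anti hanti δ
  have hpair' := Rd_pair hpair δ
  have hD' : ∀ X : M6, Skew X → X ≠ 0 → ∀ w : Fin 6 → ℝ, w ≠ 0 →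
      (∀ a, ∑ b, X a b * w b = 0) → 0 < bl (Rd R δ) X X := by
    intro X hX hX0 w hw hk
    rw [bl_Rd]
    have h1 := hD X hX w hw hk
    have h2 : 0 < bl Id2 X X := by
      rw [bl_Id2]
      have h5 : 0 ≤ ∑ i, ∑ j, (X i j - X j i) ^ 2 :=
        Finset.sum_nonneg fun i _ => Finset.sum_nonneg fun j _ => sq_nonneg _
      rcases h5.lt_or_eq with h6 | h6
      · linarith
      · exfalso
        apply hX0
        funext i j
        have h7 := sum2_zero (f := fun i j => (X i j - X j i) ^ 2) (fun i j => sq_nonneg _)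
          h6.symm i j
        have h8 : X i j - X j i = 0 := pow_eq_zero_iff (two_ne_zero) |>.mp h7
        have h9 := hX i j
        show X i j = 0
        linarith
    have h3 := mul_pos hδ h2
    linarith
  have hsec : ∀ x y, 0 ≤ quad (Rd R δ) x y := by
    intro x y
    have h1 := quad_wd hanti' hpair' x y
    have h2 : 0 ≤ bl (Rd R δ) (wd x y) (wd x y) := by
      by_cases h : wd x y = 0
      · rw [h, bl_zero_left]
      · obtain ⟨w, hw, hk⟩ := exists_kernel (wd_skew x y) (PP_wd (wd x y) x y)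
        exact (hD' _ (wd_skew x y) h w hw hk).le
    linarith
  by_cases hA : ∀ X : M6, Skew X → 0 ≤ bl (Rd R δ) X X
  · refine gb_nonneg_of_decomp hanti' hpair' 0 0 0 hsec fun X => ?_
    have h1 := hA _ (ds_skew fun a b => X (a, b))
    rw [bl_ds2 hanti' hpair', ← bl_pairs] at h1
    have h2 : ∑ i, ∑ j, (Rd R δ i.1 i.2 j.1 j.2 +
        0 * (wd 0 0 i.1 i.2 * wd 0 0 j.1 j.2)) * (X i * X j) =
        ∑ i, ∑ j, Rd R δ i.1 i.2 j.1 j.2 * (X i * X j) := by
      refine Finset.sum_congr rfl fun i _ => Finset.sum_congr rfl fun j _ => ?_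
      ring
    rw [h2]
    linarith
  · push Not at hA
    obtain ⟨Z, hZ, hneg⟩ := hA
    obtain ⟨p, q, ⟨e, he⟩, hker⟩ := exists_plane hanti' hpair' hD' hZ hneg
    exact gb_nonneg_codim2 hanti' hpair' p q e he hsec hker

end Pool.Agent.TH569.HP
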