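import Pool.Agent.H933R2.Hopf.Defs

/-!
# Signed sums over the permutations of six indices
-/

set_option autoImplicit false

namespace Pool.Agent.TH569.HP

open Finset Equiv

/-- `6 × 6` arrays -/
abbrev M6 : Type := Fin 6 → Fin 6 → ℝ

/-- sign of a permutation as a real number -/
noncomputable def sg (σ : Perm (Fin 6)) : ℝ := ((Perm.sign σ : ℤ) : ℝ)

theorem sg_mul (σ τ : Perm (Fin 6)) : sg (σ * τ) = sg σ * sg τ := by
  unfold sg
  rw [Perm.sign_mul]
  push_cast
  ring

theorem sg_swap {i j : Fin 6} (h : i ≠ j) : sg (swap i j) = -1 := by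
  unfold sg
  rw [Perm.sign_swap h]
  simp

/-- reindexing on the right -/
theorem sum_right (π : Perm (Fin 6)) (F : Perm (Fin 6) → ℝ) :
    ∑ σ, sg σ * F σ = sg π * ∑ σ, sg σ * F (σ * π) := by
  rw [Finset.mul_sum, ← _root_.Equiv.sum_comp (Equiv.mulRight π)]
  refine Finset.sum_congr rfl fun σ _ => ?_
  simp only [Equiv.coe_mulRight, sg_mul]
  ring

/-- reindexing on the left -/
theorem sum_left (π : Perm (Fin 6)) (F : Perm (Fin 6) → ℝ) :
    ∑ σ, sg σ * F σ = sg π * ∑ σ, sg σ * F (π * σ) := by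
  rw [Finset.mul_sum, ← _root_.Equiv.sum_comp (Equiv.mulLeft π)]
  refine Finset.sum_congr rfl fun σ _ => ?_
  simp only [Equiv.coe_mulLeft, sg_mul]
  ring

/-- a summand invariant under a transposition of positions -/
theorem sum_zero_right {i j : Fin 6} (hij : i ≠ j) (F : Perm (Fin 6) → ℝ)
    (h : ∀ σ, F (σ * swap i j) = F σ) : ∑ σ, sg σ * F σ = 0 := by
  have h1 := sum_right (swap i j) F
  rw [sg_swap hij] at h1
  simp only [h] at h1
  linarith

/-- a summand which depends only on `ρ ∘ σ` for a map `ρ` which is not injective -/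
theorem sum_zero_left {i j : Fin 6} (hij : i ≠ j) (ρ : Fin 6 → Fin 6) (hρ : ρ i = ρ j)
    (F : (Fin 6 → Fin 6) → ℝ) : ∑ σ : Perm (Fin 6), sg σ * F (fun k => ρ (σ k)) = 0 := by
  have h1 := sum_left (swap i j) (fun σ => F (fun k => ρ (σ k)))
  rw [sg_swap hij] at h1
  have h2 : ∀ σ : Perm (Fin 6), (fun k => ρ ((swap i j * σ) k)) = fun k => ρ (σ k) := by
    intro σ
    funext k
    simp only [Perm.mul_apply, swap_apply_def]
    split_ifs with h3 h4
    · rw [h3, hρ]
    · rw [h4, hρ]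
    · rfl
  simp only [h2] at h1
  linarith

/-- the polarised Pfaffian (48 times) -/
noncomputable def PP (f g h : M6) : ℝ :=
  ∑ σ : Perm (Fin 6), sg σ * (f (σ 0) (σ 1) * g (σ 2) (σ 3) * h (σ 4) (σ 5))

theorem PP_swap12 (f g h : M6) : PP g f h = PP f g h := by
  unfold PP
  rw [sum_right (swap 0 2 * swap 1 3)]
  rw [sg_mul, sg_swap (by decide), sg_swap (by decide)]
  simp only [Perm.mul_apply]
  have e0 : (swap (0:Fin 6) 2) ((swap (1:Fin 6) 3) 0) = 2 := by decide
  have e1 : (swap (0:Fin 6) 2) ((swap (1:Fin 6) 3) 1) = 3 := by decide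
  have e2 : (swap (0:Fin 6) 2) ((swap (1:Fin 6) 3) 2) = 0 := by decide
  have e3 : (swap (0:Fin 6) 2) ((swap (1:Fin 6) 3) 3) = 1 := by decide
  have e4 : (swap (0:Fin 6) 2) ((swap (1:Fin 6) 3) 4) = 4 := by decide
  have e5 : (swap (0:Fin 6) 2) ((swap (1:Fin 6) 3) 5) = 5 := by decide
  simp only [e0, e1, e2, e3, e4, e5]
  norm_num
  refine Finset.sum_congr rfl fun σ _ => ?_
  ring

theorem PP_swap23 (f g h : M6) : PP f h g = PP f g h := by
  unfold PP
  rw [sum_right (swap 2 4 * swap 3 5)]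
  rw [sg_mul, sg_swap (by decide), sg_swap (by decide)]
  simp only [Perm.mul_apply]
  have e0 : (swap (2:Fin 6) 4) ((swap (3:Fin 6) 5) 0) = 0 := by decide
  have e1 : (swap (2:Fin 6) 4) ((swap (3:Fin 6) 5) 1) = 1 := by decide
  have e2 : (swap (2:Fin 6) 4) ((swap (3:Fin 6) 5) 2) = 4 := by decide
  have e3 : (swap (2:Fin 6) 4) ((swap (3:Fin 6) 5) 3) = 5 := by decide
  have e4 : (swap (2:Fin 6) 4) ((swap (3:Fin 6) 5) 4) = 2 := by decide
  have e5 : (swap (2:Fin 6) 4) ((swap (3:Fin 6) 5) 5) = 3 := by decide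
  simp only [e0, e1, e2, e3, e4, e5]
  norm_num
  refine Finset.sum_congr rfl fun σ _ => ?_
  ring

theorem PP_swap13 (f g h : M6) : PP h g f = PP f g h := by
  rw [PP_swap12, PP_swap23, PP_swap12]

theorem PP_add1 (f f' g h : M6) :
    PP (fun a b => f a b + f' a b) g h = PP f g h + PP f' g h := by
  unfold PP
  rw [← Finset.sum_add_distrib]
  exact Finset.sum_congr rfl fun σ _ => by ring

theorem PP_smul1 (t : ℝ) (f g h : M6) : PP (fun a b => t * f a b) g h = t * PP f g h := by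
  unfold PP
  rw [Finset.mul_sum]
  exact Finset.sum_congr rfl fun σ _ => by ring

theorem PP_add2 (f g g' h : M6) :
    PP f (fun a b => g a b + g' a b) h = PP f g h + PP f g' h := by
  rw [PP_swap12, PP_add1, PP_swap12, PP_swap12 g' f]

theorem PP_smul2 (t : ℝ) (f g h : M6) : PP f (fun a b => t * g a b) h = t * PP f g h := by
  rw [PP_swap12, PP_smul1, PP_swap12]

theorem PP_add3 (f g h h' : M6) :
    PP f g (fun a b => h a b + h' a b) = PP f g h + PP f g h' := by
  rw [PP_swap23, PP_add2, PP_swap23, PP_swap23 f g h']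

theorem PP_smul3 (t : ℝ) (f g h : M6) : PP f g (fun a b => t * h a b) = t * PP f g h := by
  rw [PP_swap23, PP_smul2, PP_swap23]

/-- the `2`-form `p ∧ q` -/
def wd (p q : Fin 6 → ℝ) : M6 := fun a b => p a * q b - q a * p b

theorem PP_wd (f : M6) (p q : Fin 6 → ℝ) : PP f (wd p q) (wd p q) = 0 := by
  have h : PP f (wd p q) (wd p q) =
      (∑ σ : Perm (Fin 6), sg σ * (f (σ 0) (σ 1) * (p (σ 2) * q (σ 3)) * (p (σ 4) * q (σ 5)))) -
      (∑ σ : Perm (Fin 6), sg σ * (f (σ 0) (σ 1) * (p (σ 2) * q (σ 3)) * (q (σ 4) * p (σ 5)))) -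
      (∑ σ : Perm (Fin 6), sg σ * (f (σ 0) (σ 1) * (q (σ 2) * p (σ 3)) * (p (σ 4) * q (σ 5)))) +
      (∑ σ : Perm (Fin 6), sg σ * (f (σ 0) (σ 1) * (q (σ 2) * p (σ 3)) * (q (σ 4) * p (σ 5)))) := by
    unfold PP wd
    rw [← Finset.sum_sub_distrib, ← Finset.sum_sub_distrib, ← Finset.sum_add_distrib]
    exact Finset.sum_congr rfl fun σ _ => by ring
  rw [h]
  have e0 : ∀ i j : Fin 6, i ≠ 0 → j ≠ 0 → (swap i j) 0 = 0 := by decide
  have e1 : ∀ i j : Fin 6, i ≠ 1 → j ≠ 1 → (swap i j) 1 = 1 := by decide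
  rw [sum_zero_right (i := 2) (j := 4) (by decide)
      (fun σ => f (σ 0) (σ 1) * (p (σ 2) * q (σ 3)) * (p (σ 4) * q (σ 5)))
      (fun σ => by
        simp only [Perm.mul_apply]
        rw [e0 _ _ (by decide) (by decide), e1 _ _ (by decide) (by decide),
          show (swap (2:Fin 6) 4) 2 = 4 by decide, show (swap (2:Fin 6) 4) 3 = 3 by decide,
          show (swap (2:Fin 6) 4) 4 = 2 by decide, show (swap (2:Fin 6) 4) 5 = 5 by decide]
        ring),
    sum_zero_right (i := 2) (j := 5) (by decide)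
      (fun σ => f (σ 0) (σ 1) * (p (σ 2) * q (σ 3)) * (q (σ 4) * p (σ 5)))
      (fun σ => by
        simp only [Perm.mul_apply]
        rw [e0 _ _ (by decide) (by decide), e1 _ _ (by decide) (by decide),
          show (swap (2:Fin 6) 5) 2 = 5 by decide, show (swap (2:Fin 6) 5) 3 = 3 by decide,
          show (swap (2:Fin 6) 5) 4 = 4 by decide, show (swap (2:Fin 6) 5) 5 = 2 by decide]
        ring),
    sum_zero_right (i := 3) (j := 4) (by decide)
      (fun σ => f (σ 0) (σ 1) * (q (σ 2) * p (σ 3)) * (p (σ 4) * q (σ 5)))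
      (fun σ => by
        simp only [Perm.mul_apply]
        rw [e0 _ _ (by decide) (by decide), e1 _ _ (by decide) (by decide),
          show (swap (3:Fin 6) 4) 2 = 2 by decide, show (swap (3:Fin 6) 4) 3 = 4 by decide,
          show (swap (3:Fin 6) 4) 4 = 3 by decide, show (swap (3:Fin 6) 4) 5 = 5 by decide]
        ring),
    sum_zero_right (i := 3) (j := 5) (by decide)
      (fun σ => f (σ 0) (σ 1) * (q (σ 2) * p (σ 3)) * (q (σ 4) * p (σ 5)))
      (fun σ => by
        simp only [Perm.mul_apply]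
        rw [e0 _ _ (by decide) (by decide), e1 _ _ (by decide) (by decide),
          show (swap (3:Fin 6) 5) 2 = 2 by decide, show (swap (3:Fin 6) 5) 3 = 5 by decide,
          show (swap (3:Fin 6) 5) 4 = 4 by decide, show (swap (3:Fin 6) 5) 5 = 3 by decide]
        ring)]
  ring

end Pool.Agent.TH569.HP
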