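import Pool.Agent.TH569.HP.Core2

/-!
# A tensor that is nonnegative on the orthogonal complement of a decomposable bivector
-/

set_option autoImplicit false

namespace Pool.Agent.TH569.HP

open Finset Equiv Hopf6

/-- bilinear form of a tensor on arrays -/
def bl (T : Ten) (X Y : M6) : ℝ := ∑ a, ∑ b, ∑ c, ∑ d, T a b c d * (X a b * Y c d)

/-- pairing of arrays -/
def pg (u X : M6) : ℝ := ∑ a, ∑ b, u a b * X a b

/-- the identity on bivectors -/
noncomputable def Id2 : Ten := fun a b c d => dl a c * dl b d - dl a d * dl b c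

/-- one half of the identity on bivectors added -/
noncomputable def Rd (R : Ten) (δ : ℝ) : Ten := fun a b c d => R a b c d + δ * Id2 a b c d

theorem dl_comm (i a : Fin 6) : dl i a = dl a i := by
  unfold dl
  by_cases h : i = a
  · rw [if_pos h, if_pos h.symm]
  · rw [if_neg h, if_neg (fun h' => h h'.symm)]

theorem Id2_anti (a b c d : Fin 6) : Id2 b a c d = - Id2 a b c d := by
  unfold Id2
  ring

theorem Id2_pair (a b c d : Fin 6) : Id2 c d a b = Id2 a b c d := by
  unfold Id2
  rw [dl_comm c a, dl_comm d b, dl_comm c b, dl_comm d a]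
  ring

theorem Rd_anti {R : Ten} (h : ∀ a b c d, R b a c d = - R a b c d) (δ : ℝ) (a b c d : Fin 6) :
    Rd R δ b a c d = - Rd R δ a b c d := by
  unfold Rd
  rw [h a b c d, Id2_anti a b c d]
  ring

theorem Rd_pair {R : Ten} (h : ∀ a b c d, R c d a b = R a b c d) (δ : ℝ) (a b c d : Fin 6) :
    Rd R δ c d a b = Rd R δ a b c d := by
  unfold Rd
  rw [h a b c d, Id2_pair a b c d]

theorem bl_tadd (T T' : Ten) (X Y : M6) :
    bl (fun a b c d => T a b c d + T' a b c d) X Y = bl T X Y + bl T' X Y := by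
  unfold bl
  simp only [← Finset.sum_add_distrib]
  refine Finset.sum_congr rfl fun a _ => Finset.sum_congr rfl fun b _ =>
    Finset.sum_congr rfl fun c _ => Finset.sum_congr rfl fun d _ => ?_
  ring

theorem bl_tsmul (t : ℝ) (T : Ten) (X Y : M6) :
    bl (fun a b c d => t * T a b c d) X Y = t * bl T X Y := by
  unfold bl
  simp only [Finset.mul_sum]
  refine Finset.sum_congr rfl fun a _ => Finset.sum_congr rfl fun b _ =>
    Finset.sum_congr rfl fun c _ => Finset.sum_congr rfl fun d _ => ?_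
  ring

theorem bl_prod (u v : M6) (X Y : M6) :
    bl (fun a b c d => u a b * v c d) X Y = pg u X * pg v Y := by
  unfold bl pg
  rw [Finset.sum_mul]
  refine Finset.sum_congr rfl fun a _ => ?_
  rw [Finset.sum_mul]
  refine Finset.sum_congr rfl fun b _ => ?_
  rw [Finset.mul_sum]
  refine Finset.sum_congr rfl fun c _ => ?_
  rw [Finset.mul_sum]
  refine Finset.sum_congr rfl fun d _ => ?_
  ring

theorem bl_add_left (T : Ten) (X X' Y : M6) : bl T (X + X') Y = bl T X Y + bl T X' Y := by
  unfold bl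
  simp only [← Finset.sum_add_distrib]
  refine Finset.sum_congr rfl fun a _ => Finset.sum_congr rfl fun b _ =>
    Finset.sum_congr rfl fun c _ => Finset.sum_congr rfl fun d _ => ?_
  rw [show (X + X') a b = X a b + X' a b from rfl]
  ring

theorem bl_smul_left (T : Ten) (t : ℝ) (X Y : M6) : bl T (t • X) Y = t * bl T X Y := by
  unfold bl
  simp only [Finset.mul_sum]
  refine Finset.sum_congr rfl fun a _ => Finset.sum_congr rfl fun b _ =>
    Finset.sum_congr rfl fun c _ => Finset.sum_congr rfl fun d _ => ?_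
  rw [show (t • X) a b = t * X a b from rfl]
  ring

theorem bl_add_right (T : Ten) (X Y Y' : M6) : bl T X (Y + Y') = bl T X Y + bl T X Y' := by
  unfold bl
  simp only [← Finset.sum_add_distrib]
  refine Finset.sum_congr rfl fun a _ => Finset.sum_congr rfl fun b _ =>
    Finset.sum_congr rfl fun c _ => Finset.sum_congr rfl fun d _ => ?_
  rw [show (Y + Y') c d = Y c d + Y' c d from rfl]
  ring

theorem bl_smul_right (T : Ten) (t : ℝ) (X Y : M6) : bl T X (t • Y) = t * bl T X Y := by
  unfold bl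
  simp only [Finset.mul_sum]
  refine Finset.sum_congr rfl fun a _ => Finset.sum_congr rfl fun b _ =>
    Finset.sum_congr rfl fun c _ => Finset.sum_congr rfl fun d _ => ?_
  rw [show (t • Y) c d = t * Y c d from rfl]
  ring

theorem bl_comm {T : Ten} (hpair : ∀ a b c d, T c d a b = T a b c d) (X Y : M6) :
    bl T X Y = bl T Y X := by
  unfold bl
  have h1 : ∑ a, ∑ b, ∑ c, ∑ d, T a b c d * (X a b * Y c d) =
      ∑ i : Fin 6 × Fin 6, ∑ j : Fin 6 × Fin 6, T i.1 i.2 j.1 j.2 * (X i.1 i.2 * Y j.1 j.2) := by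
    simp only [Fintype.sum_prod_type]
  have h2 : ∑ a, ∑ b, ∑ c, ∑ d, T a b c d * (Y a b * X c d) =
      ∑ i : Fin 6 × Fin 6, ∑ j : Fin 6 × Fin 6, T i.1 i.2 j.1 j.2 * (Y i.1 i.2 * X j.1 j.2) := by
    simp only [Fintype.sum_prod_type]
  rw [h1, h2, Finset.sum_comm]
  refine Finset.sum_congr rfl fun i _ => Finset.sum_congr rfl fun j _ => ?_
  rw [hpair i.1 i.2 j.1 j.2]
  ring

/-- the form on arrays as a double sum over pairs -/
theorem bl_pairs (T : Ten) (X : Fin 6 × Fin 6 → ℝ) :
    ∑ i, ∑ j, T i.1 i.2 j.1 j.2 * (X i * X j) =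
      bl T (fun a b => X (a, b)) (fun a b => X (a, b)) := by
  unfold bl
  simp only [Fintype.sum_prod_type]

theorem quad_bl (T : Ten) (x y : Fin 6 → ℝ) :
    quad T x y = bl T (fun a b => x a * y b) (fun a b => x a * y b) := by
  unfold quad bl
  refine Finset.sum_congr rfl fun a _ => Finset.sum_congr rfl fun b _ =>
    Finset.sum_congr rfl fun c _ => Finset.sum_congr rfl fun d _ => ?_
  ring

theorem bl_Id2 (X : M6) : bl Id2 X X = 1 / 2 * ∑ a, ∑ b, (X a b - X b a) ^ 2 := by
  have h1 : ∀ a b, ∑ c, ∑ d, Id2 a b c d * (X a b * X c d) = X a b * X a b - X a b * X b a := by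
    intro a b
    have h2 : ∀ c, ∑ d, Id2 a b c d * (X a b * X c d) =
        dl a c * (X a b * X c b) - dl b c * (X a b * X c a) := by
      intro c
      have h3 : ∀ d, Id2 a b c d * (X a b * X c d) =
          dl b d * (dl a c * (X a b * X c d)) - dl a d * (dl b c * (X a b * X c d)) := by
        intro d
        unfold Id2
        ring
      simp only [h3]
      rw [Finset.sum_sub_distrib, sum_ind b, sum_ind a]
    simp only [h2]
    rw [Finset.sum_sub_distrib, sum_ind a, sum_ind b]
  have h4 : bl Id2 X X = ∑ a, ∑ b, (X a b * X a b - X a b * X b a) := by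
    unfold bl
    refine Finset.sum_congr rfl fun a _ => Finset.sum_congr rfl fun b _ => h1 a b
  have h5 : ∑ a, ∑ b, (X a b * X a b - X a b * X b a) =
      ∑ a, ∑ b, (X b a * X b a - X b a * X a b) := Finset.sum_comm
  have h6 : 2 * bl Id2 X X = ∑ a, ∑ b, (X a b - X b a) ^ 2 := by
    have h7 : 2 * bl Id2 X X = ∑ a, ∑ b, (X a b * X a b - X a b * X b a) +
        ∑ a, ∑ b, (X b a * X b a - X b a * X a b) := by
      rw [← h5, h4]
      ring
    rw [h7]
    simp only [← Finset.sum_add_distrib]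
    refine Finset.sum_congr rfl fun a _ => Finset.sum_congr rfl fun b _ => ?_
    ring
  linarith

theorem bl_Id2_nonneg (X : M6) : 0 ≤ bl Id2 X X := by
  rw [bl_Id2]
  have : 0 ≤ ∑ a, ∑ b, (X a b - X b a) ^ 2 :=
    Finset.sum_nonneg fun a _ => Finset.sum_nonneg fun b _ => sq_nonneg _
  linarith

theorem bl_Rd (R : Ten) (δ : ℝ) (X Y : M6) : bl (Rd R δ) X Y = bl R X Y + δ * bl Id2 X Y := by
  have h := bl_tadd R (fun a b c d => δ * Id2 a b c d) X Y
  rw [bl_tsmul] at h
  exact h

/-- an array paired with the array obtained from a tensor -/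
theorem bl_pg (T : Ten) (e X : M6) :
    bl T X e = ∑ a, ∑ b, (∑ c, ∑ d, T a b c d * e c d) * X a b := by
  unfold bl
  refine Finset.sum_congr rfl fun a _ => Finset.sum_congr rfl fun b _ => ?_
  rw [Finset.sum_mul]
  refine Finset.sum_congr rfl fun c _ => ?_
  rw [Finset.sum_mul]
  refine Finset.sum_congr rfl fun d _ => ?_
  ring

theorem pert {R : Ten} (hanti : ∀ a b c d, R b a c d = - R a b c d)
    (hpair : ∀ a b c d, R c d a b = R a b c d) (ν e : M6) (he : pg ν e = 1)
    (hker : ∀ X : M6, pg ν X = 0 → 0 ≤ bl R X X) {δ : ℝ} (hδ : 0 < δ) :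
    ∃ α : ℝ, ∀ X : M6, 0 ≤ bl (Rd R δ) X X + α * pg ν X ^ 2 := by
  set b : M6 := fun a b => ∑ c, ∑ d, R a b c d * e c d with hb
  have hbs : ∀ i j, b j i = - b i j := by
    intro i j
    rw [hb]
    simp only [hanti i j]
    simp only [neg_mul, Finset.sum_neg_distrib]
  refine ⟨bl R e e + 1 / (2 * δ) * ∑ i, ∑ j, b i j ^ 2, fun X => ?_⟩
  set t : ℝ := pg ν X with ht
  have h1 : pg ν (X + (-t) • e) = 0 := by
    have : pg ν (X + (-t) • e) = pg ν X + (-t) * pg ν e := by
      unfold pg
      simp only [Finset.mul_sum, ← Finset.sum_add_distrib]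
      refine Finset.sum_congr rfl fun a _ => Finset.sum_congr rfl fun b _ => ?_
      rw [show (X + (-t) • e) a b = X a b + (-t) * e a b from rfl]
      ring
    rw [this, he, ← ht]
    ring
  have h2 := hker _ h1
  rw [bl_add_left, bl_add_right, bl_add_right, bl_smul_left, bl_smul_left, bl_smul_right,
    bl_smul_right, bl_comm hpair e X] at h2
  have h3 : bl R X e = 1 / 2 * ∑ i, ∑ j, b i j * (X i j - X j i) := by
    have h4 : bl R X e = ∑ i, ∑ j, b i j * X i j := bl_pg R e X
    have h5 : ∑ i, ∑ j, b i j * X i j = ∑ i, ∑ j, b j i * X j i := Finset.sum_comm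
    have h6 : ∑ i, ∑ j, b j i * X j i = - ∑ i, ∑ j, b i j * X j i := by
      simp only [← Finset.sum_neg_distrib]
      refine Finset.sum_congr rfl fun i _ => Finset.sum_congr rfl fun j _ => ?_
      rw [hbs i j]
      ring
    have h7 : ∑ i, ∑ j, b i j * (X i j - X j i) = ∑ i, ∑ j, b i j * X i j -
        ∑ i, ∑ j, b i j * X j i := by
      simp only [← Finset.sum_sub_distrib]
      refine Finset.sum_congr rfl fun i _ => Finset.sum_congr rfl fun j _ => ?_
      ring
    rw [h7, h4]
    linarith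
  rw [bl_Rd, bl_Id2]
  have h8 : 0 ≤ δ / 2 * ∑ i, ∑ j, ((X i j - X j i) + t / δ * b i j) ^ 2 := by
    have : 0 ≤ ∑ i, ∑ j, ((X i j - X j i) + t / δ * b i j) ^ 2 :=
      Finset.sum_nonneg fun a _ => Finset.sum_nonneg fun b _ => sq_nonneg _
    positivity
  have h9 : δ / 2 * ∑ i, ∑ j, ((X i j - X j i) + t / δ * b i j) ^ 2 =
      δ * (1 / 2 * ∑ i, ∑ j, (X i j - X j i) ^ 2) + t * ∑ i, ∑ j, b i j * (X i j - X j i) +
        1 / (2 * δ) * (∑ i, ∑ j, b i j ^ 2) * t ^ 2 := by
    simp only [Finset.mul_sum, Finset.sum_mul, ← Finset.sum_add_distrib]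
    refine Finset.sum_congr rfl fun i _ => Finset.sum_congr rfl fun j _ => ?_
    field_simp
    ring
  rw [h9] at h8
  have h10 : t * ∑ i, ∑ j, b i j * (X i j - X j i) = 2 * t * bl R X e := by
    rw [h3]
    ring
  rw [h10] at h8
  have h11 := add_nonneg h2 h8
  refine h11.trans_eq ?_
  ring

/-- the integrand depends continuously on the perturbation -/
theorem gb_limit {R : Ten} (h : ∀ δ : ℝ, 0 < δ → 0 ≤ gb (Rd R δ)) : 0 ≤ gb R := by
  have hc : Continuous fun δ : ℝ => gb (Rd R δ) := by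
    unfold gb Rd
    fun_prop
  have h0 : gb (Rd R 0) = gb R := by
    have : Rd R 0 = R := by
      funext a b c d
      unfold Rd
      ring
    rw [this]
  rw [← h0]
  have ht : Filter.Tendsto (fun n : ℕ => (1 : ℝ) / ((n : ℝ) + 1)) Filter.atTop (nhds 0) :=
    tendsto_one_div_add_atTop_nhds_zero_nat
  have h1 := (hc.tendsto 0).comp ht
  refine ge_of_tendsto' h1 fun n => ?_
  exact h _ (by positivity)

/-- **Codimension two, in coordinates.** -/
theorem gb_nonneg_codim2 {R : Ten} (hanti : ∀ a b c d, R b a c d = - R a b c d)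
    (hpair : ∀ a b c d, R c d a b = R a b c d) (p q : Fin 6 → ℝ) (e : M6)
    (he : pg (wd p q) e = 1) (hsec : ∀ x y, 0 ≤ quad R x y)
    (hker : ∀ X : M6, pg (wd p q) X = 0 → 0 ≤ bl R X X) : 0 ≤ gb R := by
  refine gb_limit fun δ hδ => ?_
  obtain ⟨α, hα⟩ := pert hanti hpair (wd p q) e he hker hδ
  refine gb_nonneg_of_decomp (Rd_anti hanti δ) (Rd_pair hpair δ) p q α ?_ ?_
  · intro x y
    rw [quad_bl, bl_Rd, ← quad_bl]
    have h1 := hsec x y
    have h2 := bl_Id2_nonneg (fun a b => x a * y b)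
    have h3 : 0 ≤ δ * bl Id2 (fun a b => x a * y b) (fun a b => x a * y b) :=
      mul_nonneg hδ.le h2
    linarith
  · intro X
    have h1 := hα (fun a b => X (a, b))
    have h2 : ∑ i, ∑ j, (Rd R δ i.1 i.2 j.1 j.2 +
        α * (wd p q i.1 i.2 * wd p q j.1 j.2)) * (X i * X j) =
        bl (fun a b c d => Rd R δ a b c d + α * (wd p q a b * wd p q c d))
          (fun a b => X (a, b)) (fun a b => X (a, b)) :=
      bl_pairs (fun a b c d => Rd R δ a b c d + α * (wd p q a b * wd p q c d)) X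
    rw [h2, bl_tadd, bl_tsmul, bl_prod]
    nlinarith [h1]

end Pool.Agent.TH569.HP
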