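import Pool.Agent.TH569.HP.Perm

/-!
# Degenerate skew forms in dimension six
-/

set_option autoImplicit false

namespace Pool.Agent.TH569.HP

open Finset Equiv

/-- Kronecker symbol -/
noncomputable def dl (i a : Fin 6) : ℝ := if i = a then 1 else 0

theorem dl_t {i a : Fin 6} (h : i = a) : dl i a = 1 := if_pos h

theorem dl_f {i a : Fin 6} (h : ¬ i = a) : dl i a = 0 := if_neg h

/-- replace the index `k` by `c` -/
def rep (k c : Fin 6) (i : Fin 6) : Fin 6 := if i = k then c else i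

theorem rep_t {k c i : Fin 6} (h : i = k) : rep k c i = c := if_pos h

theorem rep_f {k c i : Fin 6} (h : ¬ i = k) : rep k c i = i := if_neg h

/-- skew arrays -/
def Skew (x : M6) : Prop := ∀ a b, x b a = - x a b

theorem sum_rep_ne {a c : Fin 6} (h : c ≠ a) (F : (Fin 6 → Fin 6) → ℝ) :
    ∑ σ : Perm (Fin 6), sg σ * F (fun k => rep a c (σ k)) = 0 := by
  refine sum_zero_left (i := a) (j := c) (Ne.symm h) (rep a c) ?_ F
  rw [rep_t rfl, rep_f h]

theorem sum_rep_eq (a : Fin 6) (F : (Fin 6 → Fin 6) → ℝ) :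
    ∑ σ : Perm (Fin 6), sg σ * F (fun k => rep a a (σ k)) =
      ∑ σ : Perm (Fin 6), sg σ * F (fun k => σ k) := by
  have : ∀ i, rep a a i = i := by
    intro i
    unfold rep
    split_ifs with h
    · exact h.symm
    · rfl
  simp only [this]

/-- coefficient bivector: `PP g x y = ∑ g a b * Dm x y a b` -/
noncomputable def Dm (x y : M6) (a b : Fin 6) : ℝ :=
  ∑ σ : Perm (Fin 6), sg σ * (dl (σ 0) a * dl (σ 1) b * (x (σ 2) (σ 3) * y (σ 4) (σ 5)))

theorem sum_ind (i : Fin 6) (G : Fin 6 → ℝ) : ∑ a, dl i a * G a = G i := by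
  rw [Finset.sum_eq_single i]
  · rw [dl_t rfl, one_mul]
  · intro b _ hb
    rw [dl_f (Ne.symm hb), zero_mul]
  · intro h
    exact absurd (Finset.mem_univ _) h

theorem sum_Dm (x y : M6) (k : Fin 6) (γ : Fin 6 → ℝ) :
    ∑ b, γ b * Dm x y k b =
      ∑ σ : Perm (Fin 6), sg σ * (dl (σ 0) k * γ (σ 1) * (x (σ 2) (σ 3) * y (σ 4) (σ 5))) := by
  unfold Dm
  simp only [Finset.mul_sum]
  rw [Finset.sum_comm]
  refine Finset.sum_congr rfl fun σ _ => ?_
  have := sum_ind (σ 1) (fun b => sg σ * (dl (σ 0) k * γ b * (x (σ 2) (σ 3) * y (σ 4) (σ 5))))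
  rw [← this]
  refine Finset.sum_congr rfl fun b _ => ?_
  ring

theorem PP_Dm (g x y : M6) : PP g x y = ∑ a, ∑ b, g a b * Dm x y a b := by
  have h : ∀ a, ∑ b, g a b * Dm x y a b = ∑ σ : Perm (Fin 6),
      dl (σ 0) a * (sg σ * (g a (σ 1) * (x (σ 2) (σ 3) * y (σ 4) (σ 5)))) := by
    intro a
    rw [sum_Dm]
    exact Finset.sum_congr rfl fun σ _ => by ring
  simp only [h]
  rw [Finset.sum_comm]
  unfold PP
  refine Finset.sum_congr rfl fun σ _ => ?_
  rw [sum_ind (σ 0) (fun a => sg σ * (g a (σ 1) * (x (σ 2) (σ 3) * y (σ 4) (σ 5))))]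
  ring

theorem ne_of_pos (σ : Perm (Fin 6)) {i j k : Fin 6} (h : σ j = k) (hij : i ≠ j) : ¬ σ i = k := by
  intro h1
  exact hij (σ.injective (h1.trans h.symm))

/-- the summand with one index replaced, for three factors -/
theorem rep_split (x y z : M6) (a c : Fin 6) (σ : Perm (Fin 6)) :
    x (rep a c (σ 0)) (rep a c (σ 1)) * y (rep a c (σ 2)) (rep a c (σ 3)) *
      z (rep a c (σ 4)) (rep a c (σ 5)) =
    dl (σ 0) a * (x c (σ 1) * y (σ 2) (σ 3) * z (σ 4) (σ 5)) +
    dl (σ 1) a * (x (σ 0) c * y (σ 2) (σ 3) * z (σ 4) (σ 5)) +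
    dl (σ 2) a * (x (σ 0) (σ 1) * y c (σ 3) * z (σ 4) (σ 5)) +
    dl (σ 3) a * (x (σ 0) (σ 1) * y (σ 2) c * z (σ 4) (σ 5)) +
    dl (σ 4) a * (x (σ 0) (σ 1) * y (σ 2) (σ 3) * z c (σ 5)) +
    dl (σ 5) a * (x (σ 0) (σ 1) * y (σ 2) (σ 3) * z (σ 4) c) := by
  obtain ⟨j, hj⟩ := σ.surjective a
  have hne : ∀ i, i ≠ j → ¬ σ i = a := fun i hi => ne_of_pos σ hj hi
  fin_cases j
  · simp only [Fin.zero_eta, Fin.isValue] at hj hne
    rw [rep_t hj, rep_f (hne 1 (by decide)), rep_f (hne 2 (by decide)), rep_f (hne 3 (by decide)),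
      rep_f (hne 4 (by decide)), rep_f (hne 5 (by decide)), dl_t hj, dl_f (hne 1 (by decide)),
      dl_f (hne 2 (by decide)), dl_f (hne 3 (by decide)), dl_f (hne 4 (by decide)),
      dl_f (hne 5 (by decide))]
    ring
  · simp only [Fin.mk_one, Fin.isValue] at hj hne
    rw [rep_t hj, rep_f (hne 0 (by decide)), rep_f (hne 2 (by decide)), rep_f (hne 3 (by decide)),
      rep_f (hne 4 (by decide)), rep_f (hne 5 (by decide)), dl_t hj, dl_f (hne 0 (by decide)),
      dl_f (hne 2 (by decide)), dl_f (hne 3 (by decide)), dl_f (hne 4 (by decide)),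
      dl_f (hne 5 (by decide))]
    ring
  · simp only [Fin.reduceFinMk, Fin.isValue] at hj hne
    rw [rep_t hj, rep_f (hne 0 (by decide)), rep_f (hne 1 (by decide)), rep_f (hne 3 (by decide)),
      rep_f (hne 4 (by decide)), rep_f (hne 5 (by decide)), dl_t hj, dl_f (hne 0 (by decide)),
      dl_f (hne 1 (by decide)), dl_f (hne 3 (by decide)), dl_f (hne 4 (by decide)),
      dl_f (hne 5 (by decide))]
    ring
  · simp only [Fin.reduceFinMk, Fin.isValue] at hj hne
    rw [rep_t hj, rep_f (hne 0 (by decide)), rep_f (hne 1 (by decide)), rep_f (hne 2 (by decide)),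
      rep_f (hne 4 (by decide)), rep_f (hne 5 (by decide)), dl_t hj, dl_f (hne 0 (by decide)),
      dl_f (hne 1 (by decide)), dl_f (hne 2 (by decide)), dl_f (hne 4 (by decide)),
      dl_f (hne 5 (by decide))]
    ring
  · simp only [Fin.reduceFinMk, Fin.isValue] at hj hne
    rw [rep_t hj, rep_f (hne 0 (by decide)), rep_f (hne 1 (by decide)), rep_f (hne 2 (by decide)),
      rep_f (hne 3 (by decide)), rep_f (hne 5 (by decide)), dl_t hj, dl_f (hne 0 (by decide)),
      dl_f (hne 1 (by decide)), dl_f (hne 2 (by decide)), dl_f (hne 3 (by decide)),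
      dl_f (hne 5 (by decide))]
    ring
  · simp only [Fin.reduceFinMk, Fin.isValue] at hj hne
    rw [rep_t hj, rep_f (hne 0 (by decide)), rep_f (hne 1 (by decide)), rep_f (hne 2 (by decide)),
      rep_f (hne 3 (by decide)), rep_f (hne 4 (by decide)), dl_t hj, dl_f (hne 0 (by decide)),
      dl_f (hne 1 (by decide)), dl_f (hne 2 (by decide)), dl_f (hne 3 (by decide)),
      dl_f (hne 4 (by decide))]
    ring

end Pool.Agent.TH569.HP
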