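import Pool.Agent.TH569.HP.Pf

/-!
# Degenerate skew forms in dimension six, II
-/

set_option autoImplicit false

namespace Pool.Agent.TH569.HP

open Finset Equiv

theorem Dm_comm (x y : M6) (a b : Fin 6) : Dm x y a b = Dm y x a b := by
  unfold Dm
  rw [sum_right (swap 2 4 * swap 3 5)]
  rw [sg_mul, sg_swap (by decide), sg_swap (by decide)]
  simp only [Perm.mul_apply]
  have e0 : (swap (2:Fin 6) 4) ((swap (3:Fin 6) 5) 0) = 0 := by decide
  have e1 : (swap (2:Fin 6) 4) ((swap (3:Fin 6) 5) 1) = 1 := by decide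
  have e2 : (swap (2:Fin 6) 4) ((swap (3:Fin 6) 5) 2) = 4 := by decide
  have e3 : (swap (2:Fin 6) 4) ((swap (3:Fin 6) 5) 3) = 5 := by decide
  have e4 : (swap (2:Fin 6) 4) ((swap (3:Fin 6) 5) 4) = 2 := by decide
  have e5 : (swap (2:Fin 6) 4) ((swap (3:Fin 6) 5) 5) = 3 := by decide
  simp only [e0, e1, e2, e3, e4, e5]
  rw [show (-1 : ℝ) * -1 = 1 by norm_num, one_mul]
  refine Finset.sum_congr rfl fun σ _ => ?_
  ring

theorem T1 {x : M6} (hx : Skew x) (y z : M6) (a c : Fin 6) :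
    ∑ σ : Perm (Fin 6), sg σ * (dl (σ 1) a * (x (σ 0) c * y (σ 2) (σ 3) * z (σ 4) (σ 5))) =
      ∑ b, x c b * Dm y z a b := by
  rw [sum_Dm, sum_right (swap 0 1), sg_swap (by decide), Finset.mul_sum]
  simp only [Perm.mul_apply]
  rw [show (swap (0:Fin 6) 1) 0 = 1 by decide, show (swap (0:Fin 6) 1) 1 = 0 by decide,
    show (swap (0:Fin 6) 1) 2 = 2 by decide, show (swap (0:Fin 6) 1) 3 = 3 by decide,
    show (swap (0:Fin 6) 1) 4 = 4 by decide, show (swap (0:Fin 6) 1) 5 = 5 by decide]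
  refine Finset.sum_congr rfl fun σ _ => ?_
  rw [hx c (σ 1)]
  ring

theorem T2 (x y z : M6) (a c : Fin 6) :
    ∑ σ : Perm (Fin 6), sg σ * (dl (σ 2) a * (x (σ 0) (σ 1) * y c (σ 3) * z (σ 4) (σ 5))) =
      ∑ b, y c b * Dm x z a b := by
  rw [sum_Dm, sum_right (swap 0 2 * swap 1 3), sg_mul, sg_swap (by decide), sg_swap (by decide),
    show (-1 : ℝ) * -1 = 1 by norm_num, one_mul]
  simp only [Perm.mul_apply]
  rw [show (swap (0:Fin 6) 2) ((swap (1:Fin 6) 3) 0) = 2 by decide,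
    show (swap (0:Fin 6) 2) ((swap (1:Fin 6) 3) 1) = 3 by decide,
    show (swap (0:Fin 6) 2) ((swap (1:Fin 6) 3) 2) = 0 by decide,
    show (swap (0:Fin 6) 2) ((swap (1:Fin 6) 3) 3) = 1 by decide,
    show (swap (0:Fin 6) 2) ((swap (1:Fin 6) 3) 4) = 4 by decide,
    show (swap (0:Fin 6) 2) ((swap (1:Fin 6) 3) 5) = 5 by decide]
  refine Finset.sum_congr rfl fun σ _ => ?_
  ring

theorem T3 (x : M6) {y : M6} (hy : Skew y) (z : M6) (a c : Fin 6) :
    ∑ σ : Perm (Fin 6), sg σ * (dl (σ 3) a * (x (σ 0) (σ 1) * y (σ 2) c * z (σ 4) (σ 5))) =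
      ∑ b, y c b * Dm x z a b := by
  rw [← T2, sum_right (swap 2 3), sg_swap (by decide), Finset.mul_sum]
  simp only [Perm.mul_apply]
  rw [show (swap (2:Fin 6) 3) 0 = 0 by decide, show (swap (2:Fin 6) 3) 1 = 1 by decide,
    show (swap (2:Fin 6) 3) 2 = 3 by decide, show (swap (2:Fin 6) 3) 3 = 2 by decide,
    show (swap (2:Fin 6) 3) 4 = 4 by decide, show (swap (2:Fin 6) 3) 5 = 5 by decide]
  refine Finset.sum_congr rfl fun σ _ => ?_
  rw [hy c (σ 3)]
  ring

theorem T4 (x y z : M6) (a c : Fin 6) :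
    ∑ σ : Perm (Fin 6), sg σ * (dl (σ 4) a * (x (σ 0) (σ 1) * y (σ 2) (σ 3) * z c (σ 5))) =
      ∑ b, z c b * Dm x y a b := by
  simp only [Dm_comm x y]
  rw [sum_Dm, sum_right (swap 0 4 * swap 1 5), sg_mul, sg_swap (by decide), sg_swap (by decide),
    show (-1 : ℝ) * -1 = 1 by norm_num, one_mul]
  simp only [Perm.mul_apply]
  rw [show (swap (0:Fin 6) 4) ((swap (1:Fin 6) 5) 0) = 4 by decide,
    show (swap (0:Fin 6) 4) ((swap (1:Fin 6) 5) 1) = 5 by decide,
    show (swap (0:Fin 6) 4) ((swap (1:Fin 6) 5) 2) = 2 by decide,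
    show (swap (0:Fin 6) 4) ((swap (1:Fin 6) 5) 3) = 3 by decide,
    show (swap (0:Fin 6) 4) ((swap (1:Fin 6) 5) 4) = 0 by decide,
    show (swap (0:Fin 6) 4) ((swap (1:Fin 6) 5) 5) = 1 by decide]
  refine Finset.sum_congr rfl fun σ _ => ?_
  ring

theorem T5 (x y : M6) {z : M6} (hz : Skew z) (a c : Fin 6) :
    ∑ σ : Perm (Fin 6), sg σ * (dl (σ 5) a * (x (σ 0) (σ 1) * y (σ 2) (σ 3) * z (σ 4) c)) =
      ∑ b, z c b * Dm x y a b := by
  rw [← T4, sum_right (swap 4 5), sg_swap (by decide), Finset.mul_sum]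
  simp only [Perm.mul_apply]
  rw [show (swap (4:Fin 6) 5) 0 = 0 by decide, show (swap (4:Fin 6) 5) 1 = 1 by decide,
    show (swap (4:Fin 6) 5) 2 = 2 by decide, show (swap (4:Fin 6) 5) 3 = 3 by decide,
    show (swap (4:Fin 6) 5) 4 = 5 by decide, show (swap (4:Fin 6) 5) 5 = 4 by decide]
  refine Finset.sum_congr rfl fun σ _ => ?_
  rw [hz c (σ 5)]
  ring

/-- the signed sum with one index replaced -/
theorem rep_total {x y z : M6} (hx : Skew x) (hy : Skew y) (hz : Skew z) (a c : Fin 6) :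
    ∑ σ : Perm (Fin 6), sg σ * (x (rep a c (σ 0)) (rep a c (σ 1)) *
      y (rep a c (σ 2)) (rep a c (σ 3)) * z (rep a c (σ 4)) (rep a c (σ 5))) =
    2 * (∑ b, x c b * Dm y z a b + ∑ b, y c b * Dm x z a b + ∑ b, z c b * Dm x y a b) := by
  have h0 : ∑ σ : Perm (Fin 6), sg σ * (dl (σ 0) a *
      (x c (σ 1) * y (σ 2) (σ 3) * z (σ 4) (σ 5))) = ∑ b, x c b * Dm y z a b := by
    rw [sum_Dm]
    exact Finset.sum_congr rfl fun σ _ => by ring
  have h : ∀ σ : Perm (Fin 6), sg σ * (x (rep a c (σ 0)) (rep a c (σ 1)) *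
      y (rep a c (σ 2)) (rep a c (σ 3)) * z (rep a c (σ 4)) (rep a c (σ 5))) =
      sg σ * (dl (σ 0) a * (x c (σ 1) * y (σ 2) (σ 3) * z (σ 4) (σ 5))) +
      sg σ * (dl (σ 1) a * (x (σ 0) c * y (σ 2) (σ 3) * z (σ 4) (σ 5))) +
      sg σ * (dl (σ 2) a * (x (σ 0) (σ 1) * y c (σ 3) * z (σ 4) (σ 5))) +
      sg σ * (dl (σ 3) a * (x (σ 0) (σ 1) * y (σ 2) c * z (σ 4) (σ 5))) +
      sg σ * (dl (σ 4) a * (x (σ 0) (σ 1) * y (σ 2) (σ 3) * z c (σ 5))) +
      sg σ * (dl (σ 5) a * (x (σ 0) (σ 1) * y (σ 2) (σ 3) * z (σ 4) c)) := by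
    intro σ
    rw [rep_split]
    ring
  simp only [h, Finset.sum_add_distrib]
  rw [h0, T1 hx, T2, T3 x hy, T4, T5 x y hz]
  ring

theorem contr_ne {x y z : M6} (hx : Skew x) (hy : Skew y) (hz : Skew z) {a c : Fin 6}
    (h : c ≠ a) :
    ∑ b, x c b * Dm y z a b + ∑ b, y c b * Dm x z a b + ∑ b, z c b * Dm x y a b = 0 := by
  have h1 := rep_total hx hy hz a c
  have h2 := sum_rep_ne h (fun v => x (v 0) (v 1) * y (v 2) (v 3) * z (v 4) (v 5))
  rw [h2] at h1
  linarith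

theorem contr_eq {x y z : M6} (hx : Skew x) (hy : Skew y) (hz : Skew z) (a : Fin 6) :
    2 * (∑ b, x a b * Dm y z a b + ∑ b, y a b * Dm x z a b + ∑ b, z a b * Dm x y a b) =
      PP x y z := by
  have h1 := rep_total hx hy hz a a
  have h2 := sum_rep_eq a (fun v => x (v 0) (v 1) * y (v 2) (v 3) * z (v 4) (v 5))
  rw [h2] at h1
  exact h1.symm

theorem contr_zero {x y z : M6} (hx : Skew x) (hy : Skew y) (hz : Skew z)
    (h : PP x y z = 0) (a c : Fin 6) :
    ∑ b, x c b * Dm y z a b + ∑ b, y c b * Dm x z a b + ∑ b, z c b * Dm x y a b = 0 := by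
  by_cases hca : c = a
  · subst hca
    have := contr_eq hx hy hz c
    linarith
  · exact contr_ne hx hy hz hca

/-- the standard symplectic form with integer entries -/
def Jz (a b : Fin 6) : ℤ :=
  if a.val + 1 = b.val ∧ a.val % 2 = 0 then 1
  else if b.val + 1 = a.val ∧ b.val % 2 = 0 then -1 else 0

set_option maxRecDepth 100000 in
theorem Jz_sum : ∑ σ : Perm (Fin 6), (Perm.sign σ : ℤ) *
    (Jz (σ 0) (σ 1) * Jz (σ 2) (σ 3) * Jz (σ 4) (σ 5)) = 48 := by
  decide +kernel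

/-- the standard symplectic form -/
def JJ : M6 := fun a b => (Jz a b : ℝ)

theorem JJ_skew : Skew JJ := by
  have h : ∀ a b, Jz b a = - Jz a b := by decide
  intro a b
  unfold JJ
  rw [h a b]
  push_cast
  ring

theorem PP_JJ : PP JJ JJ JJ = 48 := by
  have h := congrArg (fun z : ℤ => (z : ℝ)) Jz_sum
  push_cast at h
  unfold PP JJ sg
  exact h

/-- **A skew form with vanishing Pfaffian has a kernel vector.** -/
theorem exists_kernel {x : M6} (hx : Skew x) (h : PP x x x = 0) :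
    ∃ w : Fin 6 → ℝ, w ≠ 0 ∧ ∀ a, ∑ b, x a b * w b = 0 := by
  by_contra hcon
  push Not at hcon
  have hinj : ∀ w : Fin 6 → ℝ, (∀ a, ∑ b, x a b * w b = 0) → w = 0 := by
    intro w hw
    by_contra hne
    obtain ⟨a, ha⟩ := hcon w hne
    exact ha (hw a)
  -- first: `Dm x x = 0`
  have h1 : ∀ a b, Dm x x a b = 0 := by
    intro a b
    have := hinj (fun b => Dm x x a b) (fun c => by
      have := contr_zero hx hx hx h a c
      linarith)
    exact congrFun this b
  have h2 : ∀ g, PP g x x = 0 := by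
    intro g
    rw [PP_Dm]
    simp [h1]
  have h3 : ∀ g, Skew g → ∀ a b, Dm x g a b = 0 := by
    intro g hg a b
    have := hinj (fun b => Dm x g a b) (fun c => by
      have h4 := contr_zero hx hx hg (by rw [PP_swap13]; exact h2 g) a c
      simp only [h1, mul_zero, Finset.sum_const_zero] at h4
      linarith)
    exact congrFun this b
  have h4 : ∀ g, Skew g → ∀ h', PP h' x g = 0 := by
    intro g hg h'
    rw [PP_Dm]
    simp [h3 g hg]
  have h5 : ∀ g, Skew g → ∀ a b, Dm g g a b = 0 := by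
    intro g hg a b
    have := hinj (fun b => Dm g g a b) (fun c => by
      have h6 := contr_zero hx hg hg (by rw [PP_swap12]; exact h4 g hg g) a c
      simp only [h3 g hg, mul_zero, Finset.sum_const_zero] at h6
      linarith)
    exact congrFun this b
  have h6 : PP JJ JJ JJ = 0 := by
    rw [PP_Dm]
    simp [h5 JJ JJ_skew]
  rw [PP_JJ] at h6
  norm_num at h6

/-- **The square of a skew form with a kernel vector is decomposable.** -/
theorem decomp_of_kernel {x : M6} (hx : Skew x) {w : Fin 6 → ℝ} (hw : w ≠ 0)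
    (hk : ∀ a, ∑ b, x a b * w b = 0) :
    ∃ v : Fin 6 → ℝ, ∀ g : M6, Skew g → PP g x x = ∑ a, ∑ b, g a b * (w a * v b) := by
  obtain ⟨k, hk0⟩ : ∃ k, w k ≠ 0 := by
    by_contra hcon
    push Not at hcon
    exact hw (funext hcon)
  refine ⟨fun b => 2 * Dm x x k b / w k, fun g hg => ?_⟩
  have h1 : ∑ c, w c * (∑ σ : Perm (Fin 6), sg σ * (g (rep k c (σ 0)) (rep k c (σ 1)) *
      x (rep k c (σ 2)) (rep k c (σ 3)) * x (rep k c (σ 4)) (rep k c (σ 5)))) =
      w k * PP g x x := by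
    rw [Finset.sum_eq_single k]
    · have h2 := sum_rep_eq k (fun v => g (v 0) (v 1) * x (v 2) (v 3) * x (v 4) (v 5))
      rw [h2]
      rfl
    · intro c _ hc
      have h2 := sum_rep_ne hc (fun v => g (v 0) (v 1) * x (v 2) (v 3) * x (v 4) (v 5))
      rw [h2, mul_zero]
    · intro h
      exact absurd (Finset.mem_univ _) h
  have h2 : ∀ a, ∑ c, w c * ∑ b', x c b' * Dm g x a b' = 0 := by
    intro a
    simp only [Finset.mul_sum]
    rw [Finset.sum_comm]
    apply Finset.sum_eq_zero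
    intro b' _
    have h3 := hk b'
    have h4 : ∑ c, w c * (x c b' * Dm g x a b') = - (∑ c, x b' c * w c) * Dm g x a b' := by
      rw [← Finset.sum_neg_distrib, Finset.sum_mul]
      refine Finset.sum_congr rfl fun c _ => ?_
      rw [hx b' c]
      ring
    rw [h4, h3]
    ring
  have h3 : ∑ c, w c * (∑ σ : Perm (Fin 6), sg σ * (g (rep k c (σ 0)) (rep k c (σ 1)) *
      x (rep k c (σ 2)) (rep k c (σ 3)) * x (rep k c (σ 4)) (rep k c (σ 5)))) =
      2 * ∑ c, w c * ∑ b, g c b * Dm x x k b := by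
    simp only [rep_total hg hx hx]
    have h5 : ∑ c, w c * (2 * (∑ b, g c b * Dm x x k b + ∑ b, x c b * Dm g x k b +
        ∑ b, x c b * Dm g x k b)) = 2 * ∑ c, w c * ∑ b, g c b * Dm x x k b +
        4 * ∑ c, w c * ∑ b, x c b * Dm g x k b := by
      rw [Finset.mul_sum, Finset.mul_sum, ← Finset.sum_add_distrib]
      exact Finset.sum_congr rfl fun c _ => by ring
    rw [h5, h2 k]
    ring
  have h4 : PP g x x = (2 * ∑ c, w c * ∑ b, g c b * Dm x x k b) / w k := by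
    rw [← h3, h1]
    field_simp
  rw [h4, Finset.mul_sum, Finset.sum_div]
  refine Finset.sum_congr rfl fun c _ => ?_
  rw [Finset.mul_sum, Finset.mul_sum, Finset.sum_div]
  refine Finset.sum_congr rfl fun b _ => ?_
  ring

end Pool.Agent.TH569.HP
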