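import Pool.Agent.TH569.HP.Hyper2
import Pool.Agent.H933R2.Hopf.Main

/-!
# Comparison with constant curvature
-/

set_option autoImplicit false

namespace Pool.Agent.TH569.HP

open Finset Equiv Hopf6

/-- polarised integrand -/
noncomputable def D3 (A B C : Ten) : ℝ :=
  ∑ σ : Perm (Fin 6), ∑ τ : Perm (Fin 6), sg σ * sg τ *
    (A (σ 0) (σ 1) (τ 0) (τ 1) * B (σ 2) (σ 3) (τ 2) (τ 3) * C (σ 4) (σ 5) (τ 4) (τ 5))

theorem gb_D3 (R : Ten) : gb R = D3 R R R := rfl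

theorem sum_mulr (π : Perm (Fin 6)) (F : Perm (Fin 6) → ℝ) : ∑ σ, F (σ * π) = ∑ σ, F σ :=
  Equiv.sum_comp (Equiv.mulRight π) F

theorem D3_swap12 (A B C : Ten) : D3 B A C = D3 A B C := by
  unfold D3
  have e0 : (swap (0:Fin 6) 2) ((swap (1:Fin 6) 3) 0) = 2 := by decide
  have e1 : (swap (0:Fin 6) 2) ((swap (1:Fin 6) 3) 1) = 3 := by decide
  have e2 : (swap (0:Fin 6) 2) ((swap (1:Fin 6) 3) 2) = 0 := by decide
  have e3 : (swap (0:Fin 6) 2) ((swap (1:Fin 6) 3) 3) = 1 := by decide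
  have e4 : (swap (0:Fin 6) 2) ((swap (1:Fin 6) 3) 4) = 4 := by decide
  have e5 : (swap (0:Fin 6) 2) ((swap (1:Fin 6) 3) 5) = 5 := by decide
  rw [← sum_mulr (swap 0 2 * swap 1 3)]
  refine Finset.sum_congr rfl fun σ _ => ?_
  rw [← sum_mulr (swap 0 2 * swap 1 3)]
  refine Finset.sum_congr rfl fun τ _ => ?_
  simp only [sg_mul, sg_swap (show (0:Fin 6) ≠ 2 by decide),
    sg_swap (show (1:Fin 6) ≠ 3 by decide), Perm.mul_apply, e0, e1, e2, e3, e4, e5]
  ring

theorem D3_swap23 (A B C : Ten) : D3 A C B = D3 A B C := by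
  unfold D3
  have e0 : (swap (2:Fin 6) 4) ((swap (3:Fin 6) 5) 0) = 0 := by decide
  have e1 : (swap (2:Fin 6) 4) ((swap (3:Fin 6) 5) 1) = 1 := by decide
  have e2 : (swap (2:Fin 6) 4) ((swap (3:Fin 6) 5) 2) = 4 := by decide
  have e3 : (swap (2:Fin 6) 4) ((swap (3:Fin 6) 5) 3) = 5 := by decide
  have e4 : (swap (2:Fin 6) 4) ((swap (3:Fin 6) 5) 4) = 2 := by decide
  have e5 : (swap (2:Fin 6) 4) ((swap (3:Fin 6) 5) 5) = 3 := by decide
  rw [← sum_mulr (swap 2 4 * swap 3 5)]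
  refine Finset.sum_congr rfl fun σ _ => ?_
  rw [← sum_mulr (swap 2 4 * swap 3 5)]
  refine Finset.sum_congr rfl fun τ _ => ?_
  simp only [sg_mul, sg_swap (show (2:Fin 6) ≠ 4 by decide),
    sg_swap (show (3:Fin 6) ≠ 5 by decide), Perm.mul_apply, e0, e1, e2, e3, e4, e5]
  ring

theorem D3_lin1 (t : ℝ) (A A' B C : Ten) :
    D3 (fun a b c d => A a b c d + t * A' a b c d) B C = D3 A B C + t * D3 A' B C := by
  unfold D3
  simp only [Finset.mul_sum, ← Finset.sum_add_distrib]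
  refine Finset.sum_congr rfl fun σ _ => Finset.sum_congr rfl fun τ _ => ?_
  ring

theorem D3_lin2 (t : ℝ) (A B B' C : Ten) :
    D3 A (fun a b c d => B a b c d + t * B' a b c d) C = D3 A B C + t * D3 A B' C := by
  rw [D3_swap12, D3_lin1, D3_swap12, D3_swap12 A B']

theorem D3_lin3 (t : ℝ) (A B C C' : Ten) :
    D3 A B (fun a b c d => C a b c d + t * C' a b c d) = D3 A B C + t * D3 A B C' := by
  rw [D3_swap23, D3_lin2, D3_swap23, D3_swap23 A B C']

theorem gb_add (t : ℝ) (R S : Ten) : gb (fun a b c d => R a b c d + t * S a b c d) =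
    gb R + 3 * t * D3 R R S + 3 * t ^ 2 * D3 R S S + t ^ 3 * gb S := by
  rw [gb_D3, D3_lin1, D3_lin2, D3_lin2, D3_lin3, D3_lin3, D3_lin3, D3_lin3, gb_D3, gb_D3,
    D3_swap23 R R S, D3_swap12 R S R, D3_swap23 R R S, D3_swap12 R S S, D3_swap23 S R S,
    D3_swap12 R S S]
  ring

/-- the square of a decomposable form -/
def Sw (p q : Fin 6 → ℝ) : Ten := fun a b c d => wd p q a b * wd p q c d

theorem D3_Sw (A : Ten) (p q : Fin 6 → ℝ) : D3 A (Sw p q) (Sw p q) = 0 := by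
  unfold D3
  rw [Finset.sum_comm]
  refine Finset.sum_eq_zero fun τ _ => ?_
  have h1 := PP_wd (fun a b => A a b (τ 0) (τ 1)) p q
  have h2 : ∑ σ : Perm (Fin 6), sg σ * sg τ * (A (σ 0) (σ 1) (τ 0) (τ 1) *
      Sw p q (σ 2) (σ 3) (τ 2) (τ 3) * Sw p q (σ 4) (σ 5) (τ 4) (τ 5)) =
      (sg τ * (wd p q (τ 2) (τ 3) * wd p q (τ 4) (τ 5))) *
        PP (fun a b => A a b (τ 0) (τ 1)) (wd p q) (wd p q) := by
    unfold PP Sw
    rw [Finset.mul_sum]
    refine Finset.sum_congr rfl fun σ _ => ?_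
    ring
  rw [h2, h1, mul_zero]

theorem gb_Sw (p q : Fin 6 → ℝ) : gb (Sw p q) = 0 := D3_Sw _ p q

theorem nonneg_of_ray {A B : ℝ} (h : ∀ t : ℝ, 0 ≤ t → 0 ≤ A + t * B) : 0 ≤ B := by
  by_contra hB
  push Not at hB
  have h1 := h ((|A| + 1) / (-B)) (div_nonneg (by positivity) (by linarith))
  have h2 : (|A| + 1) / (-B) * B = -(|A| + 1) := by
    have hB' : B ≠ 0 := hB.ne
    field_simp
  rw [h2] at h1
  have := le_abs_self A
  linarith

/-- the identity as a sum of squares of decomposable forms -/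
theorem D3_Id2 (A B : Ten) :
    D3 A B Id2 = 1 / 2 * ∑ i, ∑ j, D3 A B (Sw (dl i) (dl j)) := by
  have h1 : ∀ a b c d : Fin 6, Id2 a b c d = 1 / 2 * ∑ i, ∑ j, Sw (dl i) (dl j) a b c d := by
    intro a b c d
    have h2 : ∀ i, ∑ j, Sw (dl i) (dl j) a b c d =
        dl i a * dl i c * dl b d - dl i a * dl i d * dl b c - dl i b * dl i c * dl a d +
          dl i b * dl i d * dl a c := by
      intro i
      have h3 : ∀ j, Sw (dl i) (dl j) a b c d = dl b j * (dl i a * dl i c * dl d j) -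
          dl b j * (dl i a * dl i d * dl c j) - dl a j * (dl i b * dl i c * dl d j) +
          dl a j * (dl i b * dl i d * dl c j) := by
        intro j
        unfold Sw wd
        rw [dl_comm b j, dl_comm a j, dl_comm c j, dl_comm d j]
        ring
      simp only [h3]
      rw [Finset.sum_add_distrib, Finset.sum_sub_distrib, Finset.sum_sub_distrib, sum_ind,
        sum_ind, sum_ind, sum_ind, dl_comm d b, dl_comm c b, dl_comm d a, dl_comm c a]
    simp only [h2]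
    have h4 : ∀ i, dl i a * dl i c * dl b d - dl i a * dl i d * dl b c -
        dl i b * dl i c * dl a d + dl i b * dl i d * dl a c =
        dl a i * (dl c i * dl b d - dl d i * dl b c) + dl b i * (dl d i * dl a c -
          dl c i * dl a d) := by
      intro i
      rw [dl_comm i a, dl_comm i b, dl_comm i c, dl_comm i d]
      ring
    simp only [h4]
    rw [Finset.sum_add_distrib, sum_ind, sum_ind]
    unfold Id2
    rw [dl_comm c a, dl_comm d a, dl_comm d b, dl_comm c b]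
    ring
  unfold D3
  have h5 : ∀ σ τ : Perm (Fin 6), sg σ * sg τ * (A (σ 0) (σ 1) (τ 0) (τ 1) *
      B (σ 2) (σ 3) (τ 2) (τ 3) * Id2 (σ 4) (σ 5) (τ 4) (τ 5)) =
      1 / 2 * ∑ i, ∑ j, sg σ * sg τ * (A (σ 0) (σ 1) (τ 0) (τ 1) *
      B (σ 2) (σ 3) (τ 2) (τ 3) * Sw (dl i) (dl j) (σ 4) (σ 5) (τ 4) (τ 5)) := by
    intro σ τ
    rw [h1]
    simp only [← Finset.mul_sum]
    ring
  simp only [h5]
  simp only [← Finset.mul_sum]
  congr 1
  have h6 : ∀ (F : Perm (Fin 6) → Perm (Fin 6) → Fin 6 → Fin 6 → ℝ),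
      ∑ σ, ∑ τ, ∑ i, ∑ j, F σ τ i j = ∑ i, ∑ j, ∑ σ, ∑ τ, F σ τ i j := by
    intro F
    have h7 : ∀ σ, ∑ τ, ∑ i, ∑ j, F σ τ i j = ∑ i, ∑ j, ∑ τ, F σ τ i j := by
      intro σ
      rw [Finset.sum_comm]
      exact Finset.sum_congr rfl fun i _ => Finset.sum_comm
    simp only [h7]
    rw [Finset.sum_comm]
    exact Finset.sum_congr rfl fun i _ => Finset.sum_comm
  simp only [Finset.mul_sum]
  exact h6 _

theorem Id2_curv : IsCurv Id2 := by
  refine ⟨Id2_anti, Id2_pair, fun a b c d => ?_⟩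
  unfold Id2
  rw [dl_comm b a, dl_comm c a, dl_comm c b]
  ring

theorem quad_Id2 (x y : Fin 6 → ℝ) : quad Id2 x y = area2 x y := by
  rw [quad_bl, bl_Id2]
  unfold area2
  have h1 : ∀ a b, (x a * y b - x b * y a) ^ 2 = x a ^ 2 * y b ^ 2 + x b ^ 2 * y a ^ 2 -
      2 * ((x a * y a) * (x b * y b)) := fun a b => by ring
  simp only [h1]
  simp only [Finset.sum_sub_distrib, Finset.sum_add_distrib, ← Finset.mul_sum, ← Finset.sum_mul]
  ring

theorem area2_nonneg (x y : Fin 6 → ℝ) : 0 ≤ area2 x y := by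
  rw [← quad_Id2, quad_bl]
  exact bl_Id2_nonneg _

theorem gb_Id2 : 5760 ≤ gb Id2 := by
  refine sharp_core Id2_curv fun x _ y => ?_
  rw [quad_Id2]
  have := area2_nonneg x y
  constructor <;> linarith

/-- **Comparison with constant curvature** for a class of tensors with nonnegative integrand that
is stable under adding squares of decomposable forms. -/
theorem gb_compare (C : Ten → Prop) (h1 : ∀ R, C R → 0 ≤ gb R)
    (h2 : ∀ R, C R → ∀ t : ℝ, 0 ≤ t → ∀ p q, C (fun a b c d => R a b c d + t * Sw p q a b c d))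
    {R : Ten} (hR : C R) {κ : ℝ} (hκ : 0 ≤ κ) : κ ^ 3 * 5760 ≤ gb (Rd R κ) := by
  have h3 : ∀ R, C R → ∀ p q, 0 ≤ D3 R R (Sw p q) := by
    intro R hR p q
    refine nonneg_of_ray (A := gb R / 3) fun t ht => ?_
    have h4 := h1 _ (h2 R hR t ht p q)
    rw [gb_add, D3_Sw, gb_Sw] at h4
    linarith
  have h4 : ∀ R, C R → ∀ p q p' q', 0 ≤ D3 R (Sw p q) (Sw p' q') := by
    intro R hR p q p' q'
    refine nonneg_of_ray (A := D3 R R (Sw p' q') / 2) fun t ht => ?_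
    have h5 := h3 _ (h2 R hR t ht p q) p' q'
    have h6 : D3 (Sw p q) (Sw p q) (Sw p' q') = 0 := by
      rw [← D3_swap23, ← D3_swap12, ← D3_Sw (Sw p' q') p q]
    rw [D3_lin1, D3_lin2, D3_lin2, h6, D3_swap12 R (Sw p q)] at h5
    linarith
  have h5 : 0 ≤ D3 R R Id2 := by
    rw [D3_Id2]
    have : 0 ≤ ∑ i, ∑ j, D3 R R (Sw (dl i) (dl j)) :=
      Finset.sum_nonneg fun i _ => Finset.sum_nonneg fun j _ => h3 R hR _ _
    linarith
  have h6 : 0 ≤ D3 R Id2 Id2 := by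
    rw [D3_Id2]
    have : 0 ≤ ∑ i, ∑ j, D3 R Id2 (Sw (dl i) (dl j)) := by
      refine Finset.sum_nonneg fun i _ => Finset.sum_nonneg fun j _ => ?_
      rw [← D3_swap23, D3_Id2]
      have : 0 ≤ ∑ i', ∑ j', D3 R (Sw (dl i) (dl j)) (Sw (dl i') (dl j')) :=
        Finset.sum_nonneg fun i' _ => Finset.sum_nonneg fun j' _ => h4 R hR _ _ _ _
      linarith
    linarith
  have h7 : gb (Rd R κ) = gb R + 3 * κ * D3 R R Id2 + 3 * κ ^ 2 * D3 R Id2 Id2 +
      κ ^ 3 * gb Id2 := gb_add κ R Id2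
  rw [h7]
  have h8 := h1 R hR
  have h9 : κ ^ 3 * 5760 ≤ κ ^ 3 * gb Id2 := mul_le_mul_of_nonneg_left gb_Id2 (by positivity)
  have h10 : 0 ≤ 3 * κ * D3 R R Id2 := by positivity
  have h11 : 0 ≤ 3 * κ ^ 2 * D3 R Id2 Id2 := by positivity
  linarith

end Pool.Agent.TH569.HP
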