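import Pool.Agent.TH569.HP.Hyper

/-!
# Orthonormal pairs
-/

set_option autoImplicit false

namespace Pool.Agent.TH569.HP

open Finset Equiv Hopf6

/-- orthonormal pairs -/
def St : Set ((Fin 6 → ℝ) × (Fin 6 → ℝ)) :=
  {v | ∑ a, v.1 a ^ 2 = 1 ∧ ∑ a, v.2 a ^ 2 = 1 ∧ ∑ a, v.1 a * v.2 a = 0}

theorem abs_le_of_sum {x : Fin 6 → ℝ} (h : ∑ a, x a ^ 2 = 1) (a : Fin 6) : |x a| ≤ 1 := by
  have h1 : x a ^ 2 ≤ ∑ b, x b ^ 2 :=
    Finset.single_le_sum (f := fun b => x b ^ 2) (fun b _ => sq_nonneg _) (Finset.mem_univ a)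
  rw [h] at h1
  exact (sq_le_one_iff_abs_le_one _).mp h1

theorem St_compact : IsCompact St := by
  apply Metric.isCompact_of_isClosed_isBounded
  · have h1 : IsClosed {v : (Fin 6 → ℝ) × (Fin 6 → ℝ) | ∑ a, v.1 a ^ 2 = 1} :=
      isClosed_eq (by fun_prop) continuous_const
    have h2 : IsClosed {v : (Fin 6 → ℝ) × (Fin 6 → ℝ) | ∑ a, v.2 a ^ 2 = 1} :=
      isClosed_eq (by fun_prop) continuous_const
    have h3 : IsClosed {v : (Fin 6 → ℝ) × (Fin 6 → ℝ) | ∑ a, v.1 a * v.2 a = 0} :=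
      isClosed_eq (by fun_prop) continuous_const
    exact h1.inter (h2.inter h3)
  · rw [Metric.isBounded_iff_subset_closedBall 0]
    refine ⟨1, fun v hv => ?_⟩
    rw [mem_closedBall_zero_iff, Prod.norm_def]
    refine max_le ?_ ?_
    · rw [pi_norm_le_iff_of_nonneg zero_le_one]
      intro a
      rw [Real.norm_eq_abs]
      exact abs_le_of_sum hv.1 a
    · rw [pi_norm_le_iff_of_nonneg zero_le_one]
      intro a
      rw [Real.norm_eq_abs]
      exact abs_le_of_sum hv.2.1 a

theorem sum_dl_sq (i : Fin 6) : ∑ a, dl i a ^ 2 = 1 := by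
  have : ∀ a, dl i a ^ 2 = dl i a * 1 := by
    intro a
    unfold dl
    split_ifs <;> norm_num
  simp only [this]
  rw [sum_ind]

theorem St_nonempty : St.Nonempty := by
  refine ⟨(dl 0, dl 1), sum_dl_sq 0, sum_dl_sq 1, ?_⟩
  show ∑ a, dl 0 a * dl 1 a = 0
  rw [sum_ind]
  exact dl_f (by decide)

theorem wd_zero_left (q : Fin 6 → ℝ) : wd 0 q = 0 := by
  funext a b
  show (0:ℝ) * q b - q a * 0 = 0
  ring

/-- Gram–Schmidt -/
theorem exists_St (p q : Fin 6 → ℝ) : ∃ v ∈ St, ∃ c : ℝ, wd p q = c • wd v.1 v.2 := by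
  by_cases h0 : wd p q = 0
  · obtain ⟨v, hv⟩ := St_nonempty
    refine ⟨v, hv, 0, ?_⟩
    rw [h0, zero_smul]
  have hp0 : 0 < ∑ a, p a ^ 2 := by
    rcases (Finset.sum_nonneg fun a (_ : a ∈ Finset.univ) => sq_nonneg (p a)).lt_or_eq with h | h
    · exact h
    · exfalso
      apply h0
      have hp : p = 0 := by
        funext a
        have := (Finset.sum_eq_zero_iff_of_nonneg fun a _ => sq_nonneg (p a)).mp h.symm a
          (Finset.mem_univ _)
        exact pow_eq_zero_iff (two_ne_zero) |>.mp this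
      rw [hp, wd_zero_left]
  set n : ℝ := Real.sqrt (∑ a, p a ^ 2) with hn
  have hn0 : 0 < n := Real.sqrt_pos.mpr hp0
  have hn2 : n ^ 2 = ∑ a, p a ^ 2 := Real.sq_sqrt hp0.le
  set p' : Fin 6 → ℝ := fun a => p a / n with hp'
  have hp'1 : ∑ a, p' a ^ 2 = 1 := by
    have : ∀ a, p' a ^ 2 = p a ^ 2 / n ^ 2 := fun a => by rw [hp']; ring
    simp only [this]
    rw [← Finset.sum_div, ← hn2, div_self (by positivity)]
  set s : ℝ := ∑ a, p' a * q a with hs
  set q0 : Fin 6 → ℝ := fun a => q a - s * p' a with hq0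
  have hpq0 : ∑ a, p' a * q0 a = 0 := by
    have : ∀ a, p' a * q0 a = p' a * q a - s * p' a ^ 2 := fun a => by rw [hq0]; ring
    simp only [this]
    rw [Finset.sum_sub_distrib, ← Finset.mul_sum, hp'1, ← hs]
    ring
  have hwd : wd p q = n • wd p' q0 := by
    funext a b
    show p a * q b - q a * p b = n * (p a / n * (q b - s * (p b / n)) -
      (q a - s * (p a / n)) * (p b / n))
    field_simp
    ring
  have hq00 : 0 < ∑ a, q0 a ^ 2 := by
    rcases (Finset.sum_nonneg fun a (_ : a ∈ Finset.univ) => sq_nonneg (q0 a)).lt_or_eq with h | h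
    · exact h
    · exfalso
      apply h0
      have hq : q0 = 0 := by
        funext a
        have := (Finset.sum_eq_zero_iff_of_nonneg fun a _ => sq_nonneg (q0 a)).mp h.symm a
          (Finset.mem_univ _)
        exact pow_eq_zero_iff (two_ne_zero) |>.mp this
      rw [hwd, hq]
      funext a b
      show n * (p' a * (0:ℝ) - 0 * p' b) = 0
      ring
  set m : ℝ := Real.sqrt (∑ a, q0 a ^ 2) with hm
  have hm0 : 0 < m := Real.sqrt_pos.mpr hq00
  have hm2 : m ^ 2 = ∑ a, q0 a ^ 2 := Real.sq_sqrt hq00.le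
  refine ⟨(p', fun a => q0 a / m), ⟨hp'1, ?_, ?_⟩, n * m, ?_⟩
  · show ∑ a, (q0 a / m) ^ 2 = 1
    have : ∀ a, (q0 a / m) ^ 2 = q0 a ^ 2 / m ^ 2 := fun a => by ring
    simp only [this]
    rw [← Finset.sum_div, ← hm2, div_self (by positivity)]
  · show ∑ a, p' a * (q0 a / m) = 0
    have : ∀ a, p' a * (q0 a / m) = p' a * q0 a / m := fun a => by ring
    simp only [this]
    rw [← Finset.sum_div, hpq0, zero_div]
  · rw [hwd]
    funext a b
    show n * (p' a * q0 b - q0 a * p' b) = n * m * (p' a * (q0 b / m) - q0 a / m * p' b)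
    field_simp

theorem pg_add_left (u u' X : M6) : pg (u + u') X = pg u X + pg u' X := by
  unfold pg
  simp only [← Finset.sum_add_distrib]
  refine Finset.sum_congr rfl fun a _ => Finset.sum_congr rfl fun b _ => ?_
  show (u a b + u' a b) * X a b = _
  ring

theorem pg_smul_left (t : ℝ) (u X : M6) : pg (t • u) X = t * pg u X := by
  unfold pg
  simp only [Finset.mul_sum]
  refine Finset.sum_congr rfl fun a _ => Finset.sum_congr rfl fun b _ => ?_
  show t * u a b * X a b = _
  ring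

theorem pg_comm (u X : M6) : pg u X = pg X u := by
  unfold pg
  refine Finset.sum_congr rfl fun a _ => Finset.sum_congr rfl fun b _ => ?_
  ring

theorem pg_add_right (u X X' : M6) : pg u (X + X') = pg u X + pg u X' := by
  rw [pg_comm, pg_add_left, pg_comm X, pg_comm X']

theorem pg_smul_right (t : ℝ) (u X : M6) : pg u (t • X) = t * pg u X := by
  rw [pg_comm, pg_smul_left, pg_comm X]

theorem pg_sub_right (u X X' : M6) : pg u (X - X') = pg u X - pg u X' := by
  have : X - X' = X + (-1 : ℝ) • X' := by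
    funext a b
    show X a b - X' a b = X a b + (-1) * X' a b
    ring
  rw [this, pg_add_right, pg_smul_right]
  ring

theorem pg_wd {Y : M6} (hY : Skew Y) (r q : Fin 6 → ℝ) :
    pg (wd r q) Y = 2 * ∑ a, r a * ∑ b, Y a b * q b := by
  have h1 : pg (wd r q) Y = ∑ a, ∑ b, r a * q b * Y a b - ∑ a, ∑ b, q a * r b * Y a b := by
    unfold pg wd
    simp only [← Finset.sum_sub_distrib]
    refine Finset.sum_congr rfl fun a _ => Finset.sum_congr rfl fun b _ => ?_
    ring
  have h2 : ∑ a, ∑ b, q a * r b * Y a b = - ∑ a, ∑ b, r a * q b * Y a b := by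
    rw [Finset.sum_comm]
    simp only [← Finset.sum_neg_distrib]
    refine Finset.sum_congr rfl fun a _ => Finset.sum_congr rfl fun b _ => ?_
    rw [hY a b]
    ring
  rw [h1, h2, Finset.mul_sum]
  have h3 : ∑ a, 2 * (r a * ∑ b, Y a b * q b) = 2 * ∑ a, ∑ b, r a * q b * Y a b := by
    rw [Finset.mul_sum]
    refine Finset.sum_congr rfl fun a _ => ?_
    rw [Finset.mul_sum, Finset.mul_sum, Finset.mul_sum]
    refine Finset.sum_congr rfl fun b _ => ?_
    ring
  rw [h3]
  ring

/-- the operator of a tensor -/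
def tp (T : Ten) : M6 →ₗ[ℝ] M6 where
  toFun X := fun a b => ∑ c, ∑ d, T a b c d * X c d
  map_add' X Y := by
    funext a b
    show ∑ c, ∑ d, T a b c d * (X c d + Y c d) =
      ∑ c, ∑ d, T a b c d * X c d + ∑ c, ∑ d, T a b c d * Y c d
    simp only [← Finset.sum_add_distrib]
    refine Finset.sum_congr rfl fun a _ => Finset.sum_congr rfl fun b _ => ?_
    ring
  map_smul' t X := by
    funext a b
    show ∑ c, ∑ d, T a b c d * (t * X c d) = t * ∑ c, ∑ d, T a b c d * X c d
    simp only [Finset.mul_sum]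
    refine Finset.sum_congr rfl fun a _ => Finset.sum_congr rfl fun b _ => ?_
    ring

theorem pg_tp (T : Ten) (X Y : M6) : pg (tp T X) Y = bl T Y X := (bl_pg T X Y).symm

/-- the bilinear form of a tensor as a bilinear map -/
noncomputable def Bf (T : Ten) : M6 →ₗ[ℝ] M6 →ₗ[ℝ] ℝ :=
  LinearMap.mk₂ ℝ (bl T) (fun X X' Y => bl_add_left T X X' Y)
    (fun t X Y => bl_smul_left T t X Y) (fun X Y Y' => bl_add_right T X Y Y')
    (fun t X Y => bl_smul_right T t X Y)

theorem Bf_apply (T : Ten) (X Y : M6) : Bf T X Y = bl T X Y := rfl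

end Pool.Agent.TH569.HP
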