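import Pool.Agent.TH569.HP.Quant

/-!
# From coordinates to Euclidean vector spaces
-/

set_option autoImplicit false

namespace Pool.Agent.TH569.HP

open Finset Equiv Hopf6

/-- the class of tensors that are nonnegative on the complement of `p ∧ q` -/
structure CU (p q : Fin 6 → ℝ) (R : Ten) : Prop where
  anti : ∀ a b c d, R b a c d = - R a b c d
  pair : ∀ a b c d, R c d a b = R a b c d
  sec : ∀ x y, 0 ≤ quad R x y
  ker : ∀ X : M6, pg (wd p q) X = 0 → 0 ≤ bl R X X

/-- the class of tensors that are nonnegative on degenerate skew forms -/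
structure CD (R : Ten) : Prop where
  anti : ∀ a b c d, R b a c d = - R a b c d
  pair : ∀ a b c d, R c d a b = R a b c d
  deg : ∀ X : M6, Skew X → ∀ w : Fin 6 → ℝ, w ≠ 0 → (∀ a, ∑ b, X a b * w b = 0) → 0 ≤ bl R X X

theorem bl_add_Sw (R : Ten) (t : ℝ) (p q : Fin 6 → ℝ) (X : M6) :
    bl (fun a b c d => R a b c d + t * Sw p q a b c d) X X =
      bl R X X + t * pg (wd p q) X ^ 2 := by
  rw [bl_tadd R (fun a b c d => t * Sw p q a b c d), bl_tsmul]
  have : bl (Sw p q) X X = pg (wd p q) X * pg (wd p q) X := bl_prod _ _ _ _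
  rw [this]
  ring

theorem bl_add_Sw_ge (R : Ten) {t : ℝ} (ht : 0 ≤ t) (p q : Fin 6 → ℝ) {X : M6}
    (h : 0 ≤ bl R X X) : 0 ≤ bl (fun a b c d => R a b c d + t * Sw p q a b c d) X X := by
  rw [bl_add_Sw]
  have : 0 ≤ t * pg (wd p q) X ^ 2 := by positivity
  linarith

theorem add_Sw_anti {R : Ten} (h : ∀ a b c d, R b a c d = - R a b c d) (t : ℝ)
    (p q : Fin 6 → ℝ) (a b c d : Fin 6) :
    R b a c d + t * Sw p q b a c d = -(R a b c d + t * Sw p q a b c d) := by
  rw [h a b c d]
  unfold Sw wd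
  ring

theorem add_Sw_pair {R : Ten} (h : ∀ a b c d, R c d a b = R a b c d) (t : ℝ)
    (p q : Fin 6 → ℝ) (a b c d : Fin 6) :
    R c d a b + t * Sw p q c d a b = R a b c d + t * Sw p q a b c d := by
  rw [h a b c d]
  unfold Sw wd
  ring

theorem CU_add {p q : Fin 6 → ℝ} {R : Ten} (h : CU p q R) {t : ℝ} (ht : 0 ≤ t)
    (p' q' : Fin 6 → ℝ) : CU p q (fun a b c d => R a b c d + t * Sw p' q' a b c d) := by
  refine ⟨fun a b c d => add_Sw_anti h.anti t p' q' a b c d,
    fun a b c d => add_Sw_pair h.pair t p' q' a b c d, fun x y => ?_, fun X hX => ?_⟩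
  · have h1 := h.sec x y
    rw [quad_bl] at h1 ⊢
    exact bl_add_Sw_ge R ht p' q' h1
  · exact bl_add_Sw_ge R ht p' q' (h.ker X hX)

theorem CD_add {R : Ten} (h : CD R) {t : ℝ} (ht : 0 ≤ t)
    (p' q' : Fin 6 → ℝ) : CD (fun a b c d => R a b c d + t * Sw p' q' a b c d) :=
  ⟨fun a b c d => add_Sw_anti h.anti t p' q' a b c d,
    fun a b c d => add_Sw_pair h.pair t p' q' a b c d,
    fun X hX w hw hk => bl_add_Sw_ge R ht p' q' (h.deg X hX w hw hk)⟩

theorem CU_gb {p q : Fin 6 → ℝ} {e : M6} (he : pg (wd p q) e = 1) {R : Ten} (h : CU p q R)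
    {κ : ℝ} (hκ : 0 ≤ κ) : κ ^ 3 * 5760 ≤ gb (Rd R κ) :=
  gb_compare (CU p q) (fun _ h => gb_nonneg_codim2 h.anti h.pair p q e he h.sec h.ker)
    (fun _ h _ ht p' q' => CU_add h ht p' q') h hκ

theorem CD_gb {R : Ten} (h : CD R) {κ : ℝ} (hκ : 0 ≤ κ) : κ ^ 3 * 5760 ≤ gb (Rd R κ) :=
  gb_compare CD (fun _ h => gb_nonneg_hyper h.anti h.pair h.deg)
    (fun _ h _ ht p' q' => CD_add h ht p' q') h hκ

/-! ### vector spaces -/

section
variable {V : Type*} [NormedAddCommGroup V] [InnerProductSpace ℝ V]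

/-- the curvature tensor of constant curvature one -/
def unitT (x y z w : V) : ℝ := inner ℝ x z * inner ℝ y w - inner ℝ x w * inner ℝ y z

variable (e : OrthonormalBasis (Fin 6) ℝ V) {R : V → V → V → V → ℝ}

/-- array of a family of pairs of vectors -/
def fam {ι : Type} [Fintype ι] (ξ ζ : ι → Fin 6 → ℝ) : M6 := fun a b => ∑ i, ξ i a * ζ i b

theorem fam_sum (hR : AlgCurv R) {ι : Type} [Fintype ι] (ξ ζ : ι → Fin 6 → ℝ) :
    ∑ i, ∑ j, R (vc e (ξ i)) (vc e (ζ i)) (vc e (ξ j)) (vc e (ζ j)) =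
      bl (tn e R) (fam ξ ζ) (fam ξ ζ) := by
  have h1 : ∀ i j, R (vc e (ξ i)) (vc e (ζ i)) (vc e (ξ j)) (vc e (ζ j)) =
      bl (tn e R) (fun a b => ξ i a * ζ i b) (fun a b => ξ j a * ζ j b) := by
    intro i j
    simp only [lin1 e hR (ξ i), lin2 e hR (ζ i), lin3 e hR (ξ j), lin4 e hR (ζ j),
      Finset.mul_sum]
    unfold bl tn
    refine Finset.sum_congr rfl fun a _ => Finset.sum_congr rfl fun b _ =>
      Finset.sum_congr rfl fun c _ => Finset.sum_congr rfl fun d _ => ?_
    ring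
  have h2 : fam ξ ζ = ∑ i, (fun a b => ξ i a * ζ i b : M6) := by
    funext a b
    rw [Finset.sum_apply, Finset.sum_apply]
    rfl
  have h3 : bl (tn e R) (fam ξ ζ) (fam ξ ζ) = Bf (tn e R) (fam ξ ζ) (fam ξ ζ) := rfl
  rw [h3, h2]
  simp only [map_sum, LinearMap.sum_apply, Bf_apply]
  rw [Finset.sum_comm]
  refine Finset.sum_congr rfl fun i _ => Finset.sum_congr rfl fun j _ => ?_
  rw [h1]

/-- the tensor `-R - κ R₀` -/
def negT (R : V → V → V → V → ℝ) (κ : ℝ) : V → V → V → V → ℝ :=
  fun x y z w => -(R x y z w + κ * unitT x y z w)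

theorem negT_curv (hR : AlgCurv R) (κ : ℝ) : AlgCurv (negT R κ) := by
  refine ⟨fun x x' y z w => ?_, fun t x y z w => ?_, fun x y z w => ?_, fun x y z w => ?_,
    fun x y z w => ?_⟩
  · unfold negT unitT
    rw [hR.add x x' y z w, inner_add_left, inner_add_left]
    ring
  · unfold negT unitT
    rw [hR.smul t x y z w, inner_smul_left, inner_smul_left]
    simp only [conj_trivial]
    ring
  · unfold negT unitT
    rw [hR.anti x y z w]
    ring
  · unfold negT unitT
    rw [hR.pair x y z w, real_inner_comm x z, real_inner_comm y w, real_inner_comm x w,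
      real_inner_comm y z]
    ring
  · have h := hR.bianchi x y z w
    unfold negT unitT
    rw [real_inner_comm x y, real_inner_comm x z, real_inner_comm y z]
    linarith

theorem tn_unit (a b c d : Fin 6) : unitT (e a) (e b) (e c) (e d) = Id2 a b c d := by
  have h : ∀ i j, inner ℝ (e i) (e j) = dl i j := by
    intro i j
    rw [OrthonormalBasis.inner_eq_ite]
    rfl
  unfold unitT Id2
  rw [h, h, h, h]

theorem Rd_negT (R : V → V → V → V → ℝ) (κ : ℝ) :
    Rd (tn e (negT R κ)) κ = tn e (fun x y z w => - R x y z w) := by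
  funext a b c d
  unfold Rd tn negT
  rw [tn_unit]
  ring

theorem gbc_le {κ : ℝ} (h : κ ^ 3 * 5760 ≤ gb (Rd (tn e (negT R κ)) κ)) :
    gbc e R ≤ -(roundGB κ) := by
  rw [Rd_negT, gb_neg] at h
  have hpi := Real.pi_pos
  rw [gbc_eq]
  calc 1 / ((8 * Real.pi) ^ 3 * 6) * gb (tn e R) ≤
      1 / ((8 * Real.pi) ^ 3 * 6) * (-(5760 * κ ^ 3)) :=
        mul_le_mul_of_nonneg_left (by linarith) (by positivity)
    _ = -(roundGB κ) := by
        unfold roundGB
        field_simp
        ring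

/-- The curvature operator plus `κ` is nonpositive on `Λ² H`. -/
def OpLE (R : V → V → V → V → ℝ) (κ : ℝ) (H : Submodule ℝ V) : Prop :=
  ∀ (n : ℕ) (x y : Fin n → V), (∀ i, x i ∈ H ∧ y i ∈ H) →
    ∑ i, ∑ j, (R (x i) (y i) (x j) (y j) + κ * unitT (x i) (y i) (x j) (y j)) ≤ 0

/-- The curvature operator plus `κ` is nonpositive on `U ∧ V`. -/
def OpLEMix (R : V → V → V → V → ℝ) (κ : ℝ) (U : Submodule ℝ V) : Prop :=
  ∀ (n : ℕ) (x y : Fin n → V), (∀ i, x i ∈ U) →
    ∑ i, ∑ j, (R (x i) (y i) (x j) (y j) + κ * unitT (x i) (y i) (x j) (y j)) ≤ 0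

/-- All sectional curvatures are at most `-κ`. -/
def SecLE (R : V → V → V → V → ℝ) (κ : ℝ) : Prop :=
  ∀ x y : V, R x y x y + κ * unitT x y x y ≤ 0

omit [NormedAddCommGroup V] [InnerProductSpace ℝ V] in
theorem sum_fintype {F : V → V → V → V → ℝ} {P : V → V → Prop}
    (h : ∀ (n : ℕ) (x y : Fin n → V), (∀ i, P (x i) (y i)) →
      ∑ i, ∑ j, F (x i) (y i) (x j) (y j) ≤ 0) {ι : Type} [Fintype ι] (x y : ι → V)
    (hxy : ∀ i, P (x i) (y i)) : ∑ i, ∑ j, F (x i) (y i) (x j) (y j) ≤ 0 := by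
  have h1 := h (Fintype.card ι) (x ∘ (Fintype.equivFin ι).symm) (y ∘ (Fintype.equivFin ι).symm)
    (fun i => hxy _)
  simp only [Function.comp_apply] at h1
  have h2 : ∀ i : ι, ∑ j : Fin (Fintype.card ι), F (x i) (y i)
      (x ((Fintype.equivFin ι).symm j)) (y ((Fintype.equivFin ι).symm j)) =
      ∑ j, F (x i) (y i) (x j) (y j) := fun i =>
    Equiv.sum_comp (Fintype.equivFin ι).symm fun j => F (x i) (y i) (x j) (y j)
  rw [Equiv.sum_comp (Fintype.equivFin ι).symm (fun i => ∑ j : Fin (Fintype.card ι), F (x i) (y i)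
      (x ((Fintype.equivFin ι).symm j)) (y ((Fintype.equivFin ι).symm j)))] at h1
  simp only [h2] at h1
  exact h1

theorem fam_neg (hR : AlgCurv R) (κ : ℝ) {P : V → V → Prop}
    (h : ∀ (n : ℕ) (x y : Fin n → V), (∀ i, P (x i) (y i)) →
      ∑ i, ∑ j, (R (x i) (y i) (x j) (y j) + κ * unitT (x i) (y i) (x j) (y j)) ≤ 0)
    {ι : Type} [Fintype ι] (ξ ζ : ι → Fin 6 → ℝ) (hP : ∀ i, P (vc e (ξ i)) (vc e (ζ i))) :
    0 ≤ bl (tn e (negT R κ)) (fam ξ ζ) (fam ξ ζ) := by
  rw [← fam_sum e (negT_curv hR κ)]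
  have h1 := sum_fintype (F := fun x y z w => R x y z w + κ * unitT x y z w) h
    (fun i => vc e (ξ i)) (fun i => vc e (ζ i)) hP
  unfold negT
  simp only [Finset.sum_neg_distrib]
  linarith

/-! ### the mixed condition -/

/-- the family used for an array orthogonal to `p ∧ q` -/
noncomputable def fx (p q : Fin 6 → ℝ) (X : M6) : Fin 6 ⊕ Bool → Fin 6 → ℝ
  | Sum.inl a => fun c => dl a c - p a * p c - q a * q c
  | Sum.inr true => fun c => -((∑ a, p a * X a c) - p c * (∑ d, p d * ∑ a, p a * X a d) -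
      q c * (∑ d, q d * ∑ a, p a * X a d))
  | Sum.inr false => fun c => -((∑ a, q a * X a c) - p c * (∑ d, p d * ∑ a, q a * X a d) -
      q c * (∑ d, q d * ∑ a, q a * X a d))

/-- the second vectors of the family -/
def fy (p q : Fin 6 → ℝ) (X : M6) : Fin 6 ⊕ Bool → Fin 6 → ℝ
  | Sum.inl a => fun d => X a d
  | Sum.inr true => p
  | Sum.inr false => q

theorem fx_perp {p q : Fin 6 → ℝ} (hp : ∑ a, p a ^ 2 = 1) (hq : ∑ a, q a ^ 2 = 1)
    (hpq : ∑ a, p a * q a = 0) (X : M6) (i : Fin 6 ⊕ Bool) :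
    ∑ c, p c * fx p q X i c = 0 ∧ ∑ c, q c * fx p q X i c = 0 := by
  have hpp : ∑ c, p c * p c = 1 := by rw [← hp]; exact Finset.sum_congr rfl fun c _ => (pow_two _).symm
  have hqq : ∑ c, q c * q c = 1 := by rw [← hq]; exact Finset.sum_congr rfl fun c _ => (pow_two _).symm
  have hqp : ∑ c, q c * p c = 0 := by
    rw [← hpq]
    exact Finset.sum_congr rfl fun c _ => mul_comm _ _
  have hproj : ∀ (v : Fin 6 → ℝ), ∑ c, p c * -(v c - p c * (∑ d, p d * v d) -
      q c * (∑ d, q d * v d)) = 0 ∧ ∑ c, q c * -(v c - p c * (∑ d, p d * v d) -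
      q c * (∑ d, q d * v d)) = 0 := by
    intro v
    constructor
    · have h1 : ∀ c, p c * -(v c - p c * (∑ d, p d * v d) - q c * (∑ d, q d * v d)) =
          -(p c * v c) + (p c * p c) * (∑ d, p d * v d) + (p c * q c) * (∑ d, q d * v d) := by
        intro c
        ring
      simp only [h1]
      rw [Finset.sum_add_distrib, Finset.sum_add_distrib, ← Finset.sum_mul, ← Finset.sum_mul,
        hpp, hpq, Finset.sum_neg_distrib]
      ring
    · have h1 : ∀ c, q c * -(v c - p c * (∑ d, p d * v d) - q c * (∑ d, q d * v d)) =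
          -(q c * v c) + (q c * p c) * (∑ d, p d * v d) + (q c * q c) * (∑ d, q d * v d) := by
        intro c
        ring
      simp only [h1]
      rw [Finset.sum_add_distrib, Finset.sum_add_distrib, ← Finset.sum_mul, ← Finset.sum_mul,
        hqq, hqp, Finset.sum_neg_distrib]
      ring
  rcases i with a | b
  · constructor
    · have h1 : ∀ c, p c * fx p q X (Sum.inl a) c =
          dl a c * p c - p a * (p c * p c) - q a * (p c * q c) := by
        intro c
        show p c * (dl a c - p a * p c - q a * q c) = _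
        ring
      simp only [h1]
      rw [Finset.sum_sub_distrib, Finset.sum_sub_distrib, sum_ind, ← Finset.mul_sum,
        ← Finset.mul_sum, hpp, hpq]
      ring
    · have h1 : ∀ c, q c * fx p q X (Sum.inl a) c =
          dl a c * q c - p a * (q c * p c) - q a * (q c * q c) := by
        intro c
        show q c * (dl a c - p a * p c - q a * q c) = _
        ring
      simp only [h1]
      rw [Finset.sum_sub_distrib, Finset.sum_sub_distrib, sum_ind, ← Finset.mul_sum,
        ← Finset.mul_sum, hqq, hqp]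
      ring
  · cases b
    · exact hproj fun c => ∑ a, q a * X a c
    · exact hproj fun c => ∑ a, p a * X a c

theorem fam_ds {p q : Fin 6 → ℝ} {X : M6} (hX : pg (wd p q) X = 0) :
    ds (fam (fx p q X) (fy p q X)) = ds X := by
  obtain ⟨u, hu⟩ : ∃ u : Fin 6 → ℝ, u = fun c => ∑ a, p a * X a c := ⟨_, rfl⟩
  obtain ⟨v, hv⟩ : ∃ v : Fin 6 → ℝ, v = fun c => ∑ a, q a * X a c := ⟨_, rfl⟩
  have hfam : ∀ c d, fam (fx p q X) (fy p q X) c d = X c d - p c * u d - q c * v d -
      (u c - p c * (∑ d, p d * u d) - q c * (∑ d, q d * u d)) * p d -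
      (v c - p c * (∑ d, p d * v d) - q c * (∑ d, q d * v d)) * q d := by
    intro c d
    unfold fam
    rw [Fintype.sum_sum_type, Fintype.sum_bool]
    have h1 : ∑ a : Fin 6, fx p q X (Sum.inl a) c * fy p q X (Sum.inl a) d =
        X c d - p c * u d - q c * v d := by
      have h2 : ∀ a : Fin 6, fx p q X (Sum.inl a) c * fy p q X (Sum.inl a) d =
          dl c a * X a d - p c * (p a * X a d) - q c * (q a * X a d) := by
        intro a
        show (dl a c - p a * p c - q a * q c) * X a d = _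
        rw [dl_comm a c]
        ring
      simp only [h2]
      rw [Finset.sum_sub_distrib, Finset.sum_sub_distrib, sum_ind, ← Finset.mul_sum,
        ← Finset.mul_sum, hu, hv]
    have h3 : fx p q X (Sum.inr true) c * fy p q X (Sum.inr true) d =
        -(u c - p c * (∑ d, p d * u d) - q c * (∑ d, q d * u d)) * p d := by
      rw [hu]
      rfl
    have h4 : fx p q X (Sum.inr false) c * fy p q X (Sum.inr false) d =
        -(v c - p c * (∑ d, p d * v d) - q c * (∑ d, q d * v d)) * q d := by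
      rw [hv]
      rfl
    rw [h1, h3, h4]
    ring
  have hν : ∑ d, q d * u d = ∑ d, p d * v d := by
    have h1 : pg (wd p q) X = ∑ a, ∑ b, p a * q b * X a b - ∑ a, ∑ b, q a * p b * X a b := by
      unfold pg wd
      simp only [← Finset.sum_sub_distrib]
      refine Finset.sum_congr rfl fun a _ => Finset.sum_congr rfl fun b _ => ?_
      ring
    have h2 : ∑ d, q d * u d = ∑ a, ∑ b, p a * q b * X a b := by
      rw [hu, Finset.sum_comm]
      refine Finset.sum_congr rfl fun b _ => ?_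
      rw [Finset.mul_sum]
      refine Finset.sum_congr rfl fun a _ => ?_
      ring
    have h3 : ∑ d, p d * v d = ∑ a, ∑ b, q a * p b * X a b := by
      rw [hv, Finset.sum_comm]
      refine Finset.sum_congr rfl fun b _ => ?_
      rw [Finset.mul_sum]
      refine Finset.sum_congr rfl fun a _ => ?_
      ring
    rw [hX] at h1
    rw [h2, h3]
    linarith
  funext c d
  unfold ds
  rw [hfam, hfam, hν]
  ring

theorem exists_pq (U : Submodule ℝ V) (hU : 4 ≤ Module.finrank ℝ U) :
    ∃ p q : Fin 6 → ℝ, ∑ a, p a ^ 2 = 1 ∧ ∑ a, q a ^ 2 = 1 ∧ ∑ a, p a * q a = 0 ∧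
      ∀ ξ : Fin 6 → ℝ, ∑ a, p a * ξ a = 0 → ∑ a, q a * ξ a = 0 → vc e ξ ∈ U := by
  have : FiniteDimensional ℝ V := e.toBasis.finiteDimensional_of_finite
  have hV : Module.finrank ℝ V = 6 := by
    rw [Module.finrank_eq_card_basis e.toBasis]
    simp
  let bU := stdOrthonormalBasis ℝ U
  let u : Fin 4 → V := fun i => (bU (Fin.castLE hU i) : V)
  have hu : Orthonormal ℝ u := by
    have h1 : Orthonormal ℝ (fun i => (bU i : V)) :=
      bU.orthonormal.comp_linearIsometry U.subtypeₗᵢ
    exact h1.comp _ (Fin.castLE_injective hU)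
  let S : Submodule ℝ V := Submodule.span ℝ (Set.range u)
  have hSU : S ≤ U := by
    rw [Submodule.span_le]
    rintro _ ⟨i, rfl⟩
    exact (bU (Fin.castLE hU i)).2
  have hS : Module.finrank ℝ S = 4 := by
    have := finrank_span_eq_card hu.linearIndependent
    simpa using this
  have hSp : Module.finrank ℝ Sᗮ = 2 := by
    have := S.finrank_add_finrank_orthogonal
    omega
  let b : OrthonormalBasis (Fin 2) ℝ Sᗮ := (stdOrthonormalBasis ℝ Sᗮ).reindex (finCongr hSp)
  have hco : ∀ x : V, vc e (fun a => inner ℝ (e a) x) = x := fun x => by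
    unfold vc
    exact e.sum_repr' x
  refine ⟨fun a => inner ℝ (e a) (b 0 : V), fun a => inner ℝ (e a) (b 1 : V), ?_, ?_, ?_, ?_⟩
  · rw [← vc_norm e, hco]
    have : ‖(b 0 : V)‖ = 1 := by
      have := b.orthonormal.1 0
      exact this
    rw [this]
    norm_num
  · rw [← vc_norm e, hco]
    have : ‖(b 1 : V)‖ = 1 := by
      have := b.orthonormal.1 1
      exact this
    rw [this]
    norm_num
  · rw [← vc_inner e, hco, hco]
    have := b.orthonormal.2 (show (0 : Fin 2) ≠ 1 by decide)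
    exact this
  · intro ξ h1 h2
    apply hSU
    rw [← vc_inner e, hco] at h1 h2
    have hSS : Sᗮᗮ = S := Submodule.orthogonal_orthogonal S
    rw [← hSS, Submodule.mem_orthogonal]
    intro w hw
    have hw' : (⟨w, hw⟩ : Sᗮ) = ∑ i, inner ℝ (b i) (⟨w, hw⟩ : Sᗮ) • b i :=
      (b.sum_repr' ⟨w, hw⟩).symm
    have hw'' : w = ∑ i, inner ℝ (b i) (⟨w, hw⟩ : Sᗮ) • (b i : V) := by
      have := congrArg (fun x : Sᗮ => (x : V)) hw'
      simpa using this
    rw [hw'', sum_inner, Fin.sum_univ_two, inner_smul_left, inner_smul_left, h1, h2]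
    simp

/-- **The mixed condition.** -/
theorem mix_class (hR : AlgCurv R) {κ : ℝ} (hsec : SecLE R κ) (U : Submodule ℝ V)
    (hU : 4 ≤ Module.finrank ℝ U) (hop : OpLEMix R κ U) :
    ∃ p q : Fin 6 → ℝ, pg (wd p q) (fun a b => 1 / 2 * wd p q a b) = 1 ∧
      CU p q (tn e (negT R κ)) := by
  obtain ⟨p, q, hp, hq, hpq, hmem⟩ := exists_pq e U hU
  have hT := tn_curv e (negT_curv hR κ)
  refine ⟨p, q, ?_, hT.anti, hT.pair, fun x y => ?_, fun X hX => ?_⟩
  · have hpp : ∑ c, p c * p c = 1 := by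
      rw [← hp]; exact Finset.sum_congr rfl fun c _ => (pow_two _).symm
    have hqq : ∑ c, q c * q c = 1 := by
      rw [← hq]; exact Finset.sum_congr rfl fun c _ => (pow_two _).symm
    have h1 : Skew (fun a b => 1 / 2 * wd p q a b) := (wd_skew p q).smul _
    rw [pg_wd h1]
    have h2 : ∀ a, ∑ b, 1 / 2 * wd p q a b * q b = 1 / 2 * p a := by
      intro a
      have h3 : ∀ b, 1 / 2 * wd p q a b * q b = 1 / 2 * p a * (q b * q b) -
          1 / 2 * q a * (p b * q b) := by
        intro b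
        unfold wd
        ring
      simp only [h3]
      rw [Finset.sum_sub_distrib, ← Finset.mul_sum, ← Finset.mul_sum, hqq, hpq]
      ring
    simp only [h2]
    have h4 : ∀ a, p a * (1 / 2 * p a) = 1 / 2 * (p a * p a) := fun a => by ring
    simp only [h4]
    rw [← Finset.mul_sum, hpp]
    norm_num
  · rw [quad_tn e (negT_curv hR κ)]
    have := hsec (vc e x) (vc e y)
    unfold negT
    linarith
  · have h1 := fam_neg e hR κ (P := fun x _ => x ∈ U) (fun n x y h => hop n x y h)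
      (fx p q X) (fy p q X) (fun i => hmem _ (fx_perp hp hq hpq X i).1 (fx_perp hp hq hpq X i).2)
    have h2 := bl_ds2 hT.anti hT.pair (fam (fx p q X) (fy p q X))
    rw [fam_ds hX, bl_ds2 hT.anti hT.pair] at h2
    linarith

/-- **The hyperplane condition.** -/
theorem hyper_class (hR : AlgCurv R) {κ : ℝ}
    (hop : ∀ H : Submodule ℝ V, Module.finrank ℝ H = 5 → OpLE R κ H) :
    CD (tn e (negT R κ)) := by
  have : FiniteDimensional ℝ V := e.toBasis.finiteDimensional_of_finite
  have hV : Module.finrank ℝ V = 6 := by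
    rw [Module.finrank_eq_card_basis e.toBasis]
    simp
  have hT := tn_curv e (negT_curv hR κ)
  refine ⟨hT.anti, hT.pair, fun X hX w hw hk => ?_⟩
  have hn : 0 < ∑ a, w a * w a := by
    rcases (Finset.sum_nonneg fun a (_ : a ∈ Finset.univ) => mul_self_nonneg (w a)).lt_or_eq
      with h | h
    · exact h
    · exfalso
      apply hw
      funext a
      have := (Finset.sum_eq_zero_iff_of_nonneg fun a _ => mul_self_nonneg (w a)).mp h.symm a
        (Finset.mem_univ _)
      exact mul_self_eq_zero.mp this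
  have hW : vc e w ≠ 0 := by
    intro h
    have h1 := vc_inner e w w
    rw [h, inner_zero_left] at h1
    linarith
  have hH : Module.finrank ℝ (Submodule.span ℝ {vc e w})ᗮ = 5 := by
    have h1 := (Submodule.span ℝ {vc e w}).finrank_add_finrank_orthogonal
    have h2 := finrank_span_singleton (K := ℝ) hW
    omega
  have hmem : ∀ ξ : Fin 6 → ℝ, ∑ a, w a * ξ a = 0 → vc e ξ ∈ (Submodule.span ℝ {vc e w})ᗮ := by
    intro ξ hξ
    rw [Submodule.mem_orthogonal_singleton_iff_inner_right, vc_inner, hξ]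
  have h1 := fam_neg e hR κ (P := fun x y => x ∈ (Submodule.span ℝ {vc e w})ᗮ ∧
      y ∈ (Submodule.span ℝ {vc e w})ᗮ) (fun n x y h => hop _ hH n x y h)
    (fun a c => dl a c - w a / (∑ a, w a * w a) * w c) (fun a b => X a b) (fun a => by
      refine ⟨hmem _ ?_, hmem _ ?_⟩
      · have h2 : ∀ c, w c * (dl a c - w a / (∑ a, w a * w a) * w c) =
            dl a c * w c - w a / (∑ a, w a * w a) * (w c * w c) := fun c => by ring
        simp only [h2]
        rw [Finset.sum_sub_distrib, sum_ind, ← Finset.mul_sum, div_mul_cancel₀ _ hn.ne', sub_self]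
      · rw [← hk a]
        exact Finset.sum_congr rfl fun b _ => mul_comm _ _)
  have h2 : fam (fun a c => dl a c - w a / (∑ a, w a * w a) * w c) (fun a b => X a b) = X := by
    funext c d
    unfold fam
    have h3 : ∀ a, (dl a c - w a / (∑ a, w a * w a) * w c) * X a d =
        dl c a * X a d + w c / (∑ a, w a * w a) * (X d a * w a) := by
      intro a
      rw [dl_comm a c, hX a d]
      ring
    simp only [h3]
    rw [Finset.sum_add_distrib, sum_ind, ← Finset.mul_sum, hk d]
    ring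
  rw [h2] at h1
  exact h1

/-- **Pointwise theorem, mixed condition.** -/
theorem mix_point (hR : AlgCurv R) {κ : ℝ} (hκ : 0 ≤ κ) (hsec : SecLE R κ) (U : Submodule ℝ V)
    (hU : 4 ≤ Module.finrank ℝ U) (hop : OpLEMix R κ U) : gbc e R ≤ -(roundGB κ) := by
  obtain ⟨p, q, he, hC⟩ := mix_class e hR hsec U hU hop
  exact gbc_le e (CU_gb he hC hκ)

/-- **Pointwise theorem, hyperplane condition.** -/
theorem hyper_point (hR : AlgCurv R) {κ : ℝ} (hκ : 0 ≤ κ)
    (hop : ∀ H : Submodule ℝ V, Module.finrank ℝ H = 5 → OpLE R κ H) :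
    gbc e R ≤ -(roundGB κ) :=
  gbc_le e (CD_gb (hyper_class e hR hop) hκ)

end

end Pool.Agent.TH569.HP
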